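import Pool.Agent.CWR.RA
import Pool.Agent.ORB.Gate

/-!
# CWR: iterated derivatives of programs
-/

set_option autoImplicit false

namespace Pool.Agent.CWR

open MvPolynomial Pool.Agent.ORB

variable {K : Type*} [Field K] {n w : ℕ}

/- PLAN. `List.map_congr_left`, `List.mem_range'`. -/
theorem iprod_congr {M M' : ℕ → Matrix (Fin w) (Fin w) (MvPolynomial (Fin n) K)} {a b : ℕ}
    (h : ∀ l, a ≤ l → l < b → M l = M' l) : iprod M a b = iprod M' a b := by
  unfold iprod
  congr 1
  refine List.map_congr_left fun l hl => ?_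
  rw [List.mem_range'_1] at hl
  exact h l hl.1 (by omega)

/- PLAN. `dm_split` with `c = blk x`, `d = blk x + 1` (`iprod_succ`), `iprod_mul` and `iprod_congr`. -/
theorem dm_iprod_eq {blk : Fin n → ℕ} {M : ℕ → Matrix (Fin w) (Fin w) (MvPolynomial (Fin n) K)}
    (hM : Lay blk M) {L : ℕ} {x : Fin n} (hx : blk x < L) :
    dm x (iprod M 0 L) = iprod (fun l => if l = blk x then dm x (M l) else M l) 0 L := by
  rw [dm_split hM (Nat.zero_le (blk x)) le_rfl (Nat.lt_succ_self (blk x)) hx,
    ← iprod_mul _ (Nat.zero_le (blk x)) hx.le, ← iprod_mul _ (Nat.le_succ (blk x)) hx,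
    iprod_succ, iprod_succ, ← mul_assoc]
  have h1 : iprod (fun l => if l = blk x then dm x (M l) else M l) 0 (blk x) =
      iprod M 0 (blk x) := iprod_congr fun l _ hl => if_neg (by omega)
  have h2 : iprod (fun l => if l = blk x then dm x (M l) else M l) (blk x + 1) L =
      iprod M (blk x + 1) L := iprod_congr fun l hl _ => if_neg (by omega)
  rw [h1, h2, if_pos rfl]

private theorem der_sum (x : Fin n) (u v : Fin w → K)
    (X : Matrix (Fin w) (Fin w) (MvPolynomial (Fin n) K)) :
    pderiv x (∑ i, ∑ j, C (u i) * X i j * C (v j)) = ∑ i, ∑ j, C (u i) * dm x X i j * C (v j) := by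
  rw [map_sum]
  refine Finset.sum_congr rfl fun i _ => ?_
  rw [map_sum]
  refine Finset.sum_congr rfl fun j _ => ?_
  rw [Derivation.leibniz, Derivation.leibniz]
  simp [dm]
  ring

private theorem der_comm (a b : Fin n) (f : MvPolynomial (Fin n) K) :
    pderiv a (pderiv b f) = pderiv b (pderiv a f) := by
  ext m
  rw [coeff_pderiv, coeff_pderiv, coeff_pderiv, coeff_pderiv, add_right_comm m]
  by_cases h : a = b
  · rw [h]
  · have h1 : (Finsupp.single a 1 : Fin n →₀ ℕ) b = 0 := Finsupp.single_eq_of_ne (Ne.symm h)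
    have h2 : (Finsupp.single b 1 : Fin n →₀ ℕ) a = 0 := Finsupp.single_eq_of_ne h
    simp only [Finsupp.add_apply, h1, h2, add_zero]
    ring

private theorem der_pd (v : Fin n) (f : MvPolynomial (Fin n) K) (h : v ∉ f.vars)
    (Ls : List (Fin n)) : pderiv v (pd Ls f) = 0 := by
  induction Ls with
  | nil => exact pderiv_eq_zero_of_notMem_vars h
  | cons x Ls ih => rw [pd_cons, der_comm, ih, map_zero]

/- PLAN. Induction over `Ls`, for the statement: if all `x ∈ Ls` have `blk x < L`, then
`pd Ls (∑ ...)` is the same sum with `M l` replaced by `M' l = (M l).map (pd (Ls.filter (blk · = l)))`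
(`dm_iprod_eq`; `M'` satisfies `Lay blk M'` since partial derivatives commute), otherwise it is `0`
(`dm_iprod_eq_zero`, `pd_zero`).  Then `RA.zero`, or the data `M' l` for `l < L` and `1` for
`l ≥ L` (`iprod_congr`). -/
theorem RA_pd {blk : Fin n → ℕ} {M : ℕ → Matrix (Fin w) (Fin w) (MvPolynomial (Fin n) K)} {L : ℕ}
    (hM : ∀ l < L, ∀ i j, ∀ x ∈ (M l i j).vars, blk x = l) (u v : Fin w → K) (Ls : List (Fin n))
    {𝒜 : ℕ → Subalgebra K (MvPolynomial (Fin n) K)}
    (h𝒜 : ∀ l < L, ∀ i j, pd (Ls.filter fun x => blk x = l) (M l i j) ∈ 𝒜 l) :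
    RA 𝒜 L w (pd Ls (∑ i, ∑ j, C (u i) * iprod M 0 L i j * C (v j))) := by
  obtain ⟨N, hN⟩ : ∃ N : List (Fin n) → ℕ → Matrix (Fin w) (Fin w) (MvPolynomial (Fin n) K),
      ∀ Ls l, N Ls l = if l < L then (M l).map (pd (Ls.filter fun x => blk x = l)) else 1 :=
    ⟨_, fun _ _ => rfl⟩
  have hLay : ∀ Ls, Lay blk (N Ls) := by
    intro Ls l x hx
    rw [hN]
    split_ifs with hl
    · ext1 i j
      show pderiv x (pd _ (M l i j)) = 0
      exact der_pd x _ (fun h => hx (hM l hl i j x h)) _
    · exact dm_one x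
  have key : ∀ Ls : List (Fin n),
      pd Ls (∑ i, ∑ j, C (u i) * iprod M 0 L i j * C (v j)) = 0 ∨
      pd Ls (∑ i, ∑ j, C (u i) * iprod M 0 L i j * C (v j)) =
        ∑ i, ∑ j, C (u i) * iprod (N Ls) 0 L i j * C (v j) := by
    intro Ls
    induction Ls with
    | nil =>
      right
      rw [pd_nil]
      have h1 : iprod M 0 L = iprod (N []) 0 L := iprod_congr fun l _ hl => by
        rw [hN, if_pos hl]
        ext1 i j
        simp
      rw [h1]
    | cons x Ls ih =>
      rw [pd_cons]
      rcases ih with ih | ih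
      · left
        rw [ih, map_zero]
      · rw [ih, der_sum]
        rcases Nat.lt_or_ge (blk x) L with hx | hx
        · right
          rw [dm_iprod_eq (hLay Ls) hx]
          have h1 : iprod (fun l => if l = blk x then dm x (N Ls l) else N Ls l) 0 L =
              iprod (N (x :: Ls)) 0 L := iprod_congr fun l _ hl => by
            simp only [hN, if_pos hl]
            by_cases h : l = blk x
            · rw [if_pos h, List.filter_cons_of_pos (by simp [h])]
              ext1 i j
              rfl
            · rw [if_neg h, List.filter_cons_of_neg (by simpa using fun h' => h h'.symm)]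
          rw [h1]
        · left
          rw [dm_iprod_eq_zero (hLay Ls) (Or.inr hx)]
          simp
  rcases key Ls with h | h
  · rw [h]
    exact RA.zero
  · refine ⟨N Ls, u, v, fun l i j => ?_, h⟩
    rw [hN]
    split_ifs with hl
    · exact h𝒜 l hl i j
    · rw [Matrix.one_apply]
      split_ifs
      · exact one_mem _
      · exact zero_mem _

end Pool.Agent.CWR
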