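import Pool.Agent.CWR.RA

/-!
# CWR: determinants of programs
-/

set_option autoImplicit false

namespace Pool.Agent.CWR

open MvPolynomial

variable {K : Type*} [Field K] {n : ℕ} {𝒜 : ℕ → Subalgebra K (MvPolynomial (Fin n) K)} {L w : ℕ}

private theorem rdet_sum {ι : Type*} (S : Finset ι) (g : ι → MvPolynomial (Fin n) K)
    (h : ∀ i ∈ S, RA 𝒜 L w (g i)) : RA 𝒜 L (S.card * w) (∑ i ∈ S, g i) := by
  classical
  induction S using Finset.induction_on with
  | empty => simpa using (RA.zero (𝒜 := 𝒜) (L := L) (w := 0))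
  | insert a S ha ih =>
    rw [Finset.sum_insert ha, Finset.card_insert_of_notMem ha]
    have h1 := (h a (Finset.mem_insert_self a S)).add
      (ih fun i hi => h i (Finset.mem_insert_of_mem hi))
    have e : (S.card + 1) * w = w + S.card * w := by ring
    rw [e]
    exact h1

private theorem rdet_prod {ι : Type*} (S : Finset ι) (g : ι → MvPolynomial (Fin n) K)
    (h : ∀ i ∈ S, RA 𝒜 L w (g i)) : RA 𝒜 L (w ^ S.card) (∏ i ∈ S, g i) := by
  classical
  induction S using Finset.induction_on with
  | empty => simpa using (RA.one (𝒜 := 𝒜) (L := L))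
  | insert a S ha ih =>
    rw [Finset.prod_insert ha, Finset.card_insert_of_notMem ha]
    have h1 := (h a (Finset.mem_insert_self a S)).mul
      (ih fun i hi => h i (Finset.mem_insert_of_mem hi))
    rw [pow_succ']
    exact h1

/- PLAN. As `Pool.Agent.ORB.MixedLeaf.det` in `Pool/Agent/ORB/Leaf.lean`: sums of `k` programs have
width `k * w`, products of `k` programs width `w ^ k` (induction over a `Finset`), `Matrix.det_apply`,
signs by `RA.neg`. -/
theorem RA.det {M : ℕ} (a : Matrix (Fin M) (Fin M) (MvPolynomial (Fin n) K))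
    (ha : ∀ i j, RA 𝒜 L w (a i j)) : RA 𝒜 L (M.factorial * w ^ M) a.det := by
  classical
  rw [Matrix.det_apply]
  have h1 : ∀ σ ∈ (Finset.univ : Finset (Equiv.Perm (Fin M))),
      RA 𝒜 L (w ^ M) (Equiv.Perm.sign σ • ∏ i, a (σ i) i) := by
    intro σ _
    have h2 : RA 𝒜 L (w ^ M) (∏ i, a (σ i) i) := by
      have := rdet_prod (𝒜 := 𝒜) (L := L) (w := w) Finset.univ (fun i => a (σ i) i)
        (fun i _ => ha _ _)
      simpa using this
    rcases Int.units_eq_one_or (Equiv.Perm.sign σ) with h3 | h3
    · rw [h3, one_smul]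
      exact h2
    · rw [h3, Units.neg_smul, one_smul]
      exact h2.neg
  have h4 := rdet_sum (𝒜 := 𝒜) (L := L) Finset.univ _ h1
  rwa [Finset.card_univ, Fintype.card_perm, Fintype.card_fin] at h4

end Pool.Agent.CWR
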