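import Pool.Agent.CWR.AbpH
import Pool.Agent.ORB.Occ

/-!
# CWR: Jacobian minors of formulas
-/

set_option autoImplicit false

namespace Pool.Agent.CWR

open MvPolynomial Pool.Agent.ORB

variable {K : Type*} [Field K] {n : ℕ}

/-- the class of polynomials computed by formulas of depth `Δ` -/
def Cs (κ w : ℕ) (β : ℕ → Option (Fin n → ℕ)) (𝓛 : Set (MvPolynomial (Fin n) K)) (Δ : ℕ) :
    Set (MvPolynomial (Fin n) K) := {f | Circ κ w β (fun g => g ∈ 𝓛) Δ f}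

variable {κ w : ℕ} {β : ℕ → Option (Fin n → ℕ)} {𝓛 : Set (MvPolynomial (Fin n) K)}

theorem Cs_zero : Cs κ w β 𝓛 0 = 𝓛 := by
  ext f
  constructor
  · intro h
    cases h with
    | leaf h => exact h
  · intro h
    exact Circ.leaf h

theorem Cs_gate {Δ : ℕ} (h : β Δ = none) : Cs κ w β 𝓛 (Δ + 1) ⊆ Gate κ (Cs κ w β 𝓛 Δ) := by
  intro f hf
  cases hf with
  | sum hβ b hb hκ => exact ⟨_, b, hb, Or.inl ⟨hκ, Or.inl rfl⟩⟩
  | prod hβ b hb hκ e => exact ⟨_, b, hb, Or.inl ⟨hκ, Or.inr ⟨e, rfl⟩⟩⟩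
  | comp hβ b hb hm p => exact ⟨_, b, hb, Or.inr ⟨hm, p, rfl⟩⟩
  | abp hβ hw M hM hv u v =>
    rw [h] at hβ
    exact absurd hβ (by simp)

theorem Cs_abp {Δ : ℕ} {blk : Fin n → ℕ} (h : β Δ = some blk) :
    Cs κ w β 𝓛 (Δ + 1) ⊆ Abp w blk (Cs κ w β 𝓛 Δ) := by
  intro f hf
  cases hf with
  | sum hβ b hb hκ => rw [h] at hβ; exact absurd hβ (by simp)
  | prod hβ b hb hκ e => rw [h] at hβ; exact absurd hβ (by simp)
  | comp hβ b hb hm p => rw [h] at hβ; exact absurd hβ (by simp)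
  | abp hβ hw M hM hv u v =>
    rw [h] at hβ
    obtain rfl := Option.some.inj hβ
    exact ⟨_, _, M, u, v, hw, hM, hv, rfl⟩

theorem Dc_mono {𝓑 𝓑' : Set (MvPolynomial (Fin n) K)} (h : 𝓑 ⊆ 𝓑') {m m' : ℕ} (hm : m ≤ m') :
    Dc 𝓑 m ⊆ Dc 𝓑' m' := by
  rintro f ⟨L, hL, b, hb, rfl⟩
  exact ⟨L, hL.trans hm, b, h hb, rfl⟩

variable [CharZero K] {σ : Type*}

theorem circ_H1_aux {gp : Fin n → Polynomial K} (hgp : LinearIndependent K gp)
    {γ : Fin n → MvPolynomial σ K} {k Δ : ℕ}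
    (h : H1 gp γ 0 (Dc 𝓛 (2 * Δ)) (sz κ k w Δ)) :
    ∀ j i, i + j = Δ → H1 gp γ (∑ t ∈ Finset.Ico i Δ, cost κ k w t)
      (Dc (Cs κ w β 𝓛 j) (2 * i)) (sz κ k w i) := by
  intro j
  induction j with
  | zero =>
    intro i hi
    obtain rfl : i = Δ := by omega
    rw [Finset.Ico_self, Finset.sum_empty, Cs_zero]
    exact h
  | succ j ih =>
    intro i hi
    have h1 := ih (i + 1) (by omega)
    have hlt : i < Δ := by omega
    have e1 : ∑ t ∈ Finset.Ico i Δ, cost κ k w t =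
        ∑ t ∈ Finset.Ico (i + 1) Δ, cost κ k w t + cost κ k w i := by
      rw [Finset.sum_eq_sum_Ico_succ_bot hlt, Nat.add_comm]
    rw [e1]
    have hsz : sz κ k w (i + 1) = rowsG κ (sz κ k w i) (2 * i) + rowsA w (sz κ k w i) := rfl
    rw [hsz] at h1
    rcases hβ : β j with _ | blk
    · have h2 := gate_H1 (κ := κ) (m := 2 * i) (N := sz κ k w i) hgp
        (H1.mono h1 le_rfl (Dc_mono subset_rfl (by omega)) (Nat.le_add_right _ _))
      exact H1.mono h2 (Nat.add_le_add_left (Nat.le_add_right _ _) _)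
        (Dc_mono (Cs_gate hβ) le_rfl) le_rfl
    · have h2 := abp_H1 (w := w) (blk := blk) (m := 2 * i) (M₀ := sz κ k w i) hgp
        (H1.mono h1 le_rfl (Dc_mono subset_rfl (by omega)) (Nat.le_add_left _ _))
      exact H1.mono h2 (Nat.add_le_add_left (Nat.le_add_left _ _) _)
        (Dc_mono (Cs_abp hβ) le_rfl) le_rfl

/-- **Closure theorem.** -/
theorem circ_hit {gp : Fin n → Polynomial K} (hgp : LinearIndependent K gp)
    {γ : Fin n → MvPolynomial σ K} {k Δ : ℕ}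
    (h : H1 gp γ 0 (Dc 𝓛 (2 * Δ)) (sz κ k w Δ)) {N : ℕ} (T : Fin N → MvPolynomial (Fin n) K)
    (hT : ∀ i, Circ κ w β (fun g => g ∈ 𝓛) Δ (T i))
    (htr : ∀ c : Finset (Fin N), AlgebraicIndepOn K T (c : Set (Fin N)) → c.card ≤ k)
    (g : MvPolynomial (Fin n) K) (hg : IsAlgebraic (Algebra.adjoin K (Set.range T)) g)
    (hg0 : g ≠ 0) : PhiP gp γ (Etot κ k w Δ) g ≠ 0 := by
  have h1 := circ_H1_aux (β := β) hgp h Δ 0 (by omega)
  rw [← Finset.range_eq_Ico] at h1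
  unfold Etot
  apply PhiP_PhiP
  refine PhiP_faith gp hgp _ k T htr ?_ g hg hg0
  intro M hM e J hdet
  rw [aeval_PhiP_X]
  exact h1 M hM _ (fun i => ⟨[], Nat.zero_le _, T (e i), hT _, rfl⟩) J hdet

end Pool.Agent.CWR
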