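import Pool.Agent.CWR.Cov
import Pool.Agent.ORB.FaithA

/-!
# CWR: nonzero polynomials depending on a covered family are hit
-/

set_option autoImplicit false

namespace Pool.Agent.CWR

open MvPolynomial Pool.Agent.ORB Pool.Agent.Helper5.D4

variable {K : Type*} [Field K] [CharZero K] {n w : ℕ} {σ : Type*} {p : Fin n → Polynomial K}
  {γ : Fin n → MvPolynomial σ K}

/- PLAN. `Ψ` is algebraically independent (`algebraicIndependent_of_det` with the derivations
`pderiv (I j)`; the determinant is nonzero because its image is).  The family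
`Option (Fin t) → _`, `none ↦ F`, `some j ↦ Ψ j` is not: otherwise `exists_jacobian_minor` (after
`Fin (t + 1) ≃ Option (Fin t)`) gives a nonzero minor of size `t + 1`, but its rows over `QQ K n` are
dependent (`gr F` is a combination of the `gr (Ψ j)`).  So `F` is algebraic over
`adjoin K (range Ψ)` (`AlgebraicIndependent`/`Option` lemma, as in
`Helper5.D4.Faithful.exists_basis`: `AlgebraicIndepOn.insert`). -/
theorem isAlgebraic_of_gr {t : ℕ} (Ψ : Fin t → MvPolynomial (Fin n) K) (I : Fin t → Fin n)
    (hdet : (Matrix.of fun i j => pderiv (I j) (Ψ i)).det ≠ 0) {F : MvPolynomial (Fin n) K}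
    (hF : gr F ∈ Submodule.span (QQ K n) (Set.range fun j => gr (Ψ j))) :
    IsAlgebraic (Algebra.adjoin K (Set.range Ψ)) F := by
  classical
  have hind : AlgebraicIndependent K Ψ :=
    algebraicIndependent_of_det (fun j : Fin t => pderiv (I j)) Ψ hdet
  by_contra htr
  have h1 : AlgebraicIndependent K (fun o : Option (Fin t) => o.elim F Ψ) :=
    (hind.option_iff_transcendental F).2 htr
  obtain ⟨e, he⟩ : ∃ e : Fin (t + 1) ≃ Option (Fin t), e = finSuccEquiv t := ⟨_, rfl⟩
  obtain ⟨T, hT⟩ : ∃ T : Fin (t + 1) → MvPolynomial (Fin n) K,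
      T = fun i => (e i).elim F Ψ := ⟨_, rfl⟩
  have h2 : AlgebraicIndependent K T := by
    rw [hT]
    exact h1.comp e e.injective
  obtain ⟨J, hJ⟩ := exists_jacobian_minor T h2
  have hinj : Function.Injective (algebraMap (MvPolynomial (Fin n) K) (QQ K n)) :=
    IsFractionRing.injective _ _
  have h3 : (Matrix.of fun i j : Fin (t + 1) => gr (T i) (J j)).det ≠ 0 := by
    have h4 : (Matrix.of fun i j : Fin (t + 1) => gr (T i) (J j)) =
        (algebraMap (MvPolynomial (Fin n) K) (QQ K n)).mapMatrix
          (Matrix.of fun i j => pderiv (J j) (T i)) := rfl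
    rw [h4, ← RingHom.map_det]
    intro h0
    exact hJ (hinj (by rw [h0, map_zero]))
  have h5 : LinearIndependent (QQ K n) (fun i => gr (T i)) := by
    have h6 := Matrix.linearIndependent_rows_of_det_ne_zero h3
    exact LinearIndependent.of_comp (LinearMap.funLeft (QQ K n) (QQ K n) J) h6
  have h7 : (fun i => gr (T i)) (e.symm none) ∉
      Submodule.span (QQ K n) ((fun i => gr (T i)) '' {i | i ≠ e.symm none}) :=
    h5.notMem_span_image (fun h => h rfl)
  apply h7
  have h8 : T (e.symm none) = F := by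
    rw [hT]
    simp
  show gr (T (e.symm none)) ∈ _
  rw [h8]
  refine (Submodule.span_mono ?_) hF
  rintro _ ⟨j, rfl⟩
  refine ⟨e.symm (some j), ?_, ?_⟩
  · intro h
    have h9 := e.symm.injective h
    exact Option.some_ne_none j h9
  · have h10 : T (e.symm (some j)) = Ψ j := by
      rw [hT]
      simp
    show gr (T (e.symm (some j))) = gr (Ψ j)
    rw [h10]

/- PLAN. `isAlgebraic_of_gr`, then `algInd_PhiP` for the base `fun v => PhiP p γ c (X v)` and
`faithful` for `PhiP p (fun v => PhiP p γ c (X v)) t` (family `Option (Fin t)` containing `F`), then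
`PhiP_PhiP` and `PhiP_mono`. -/
theorem hit_of_cov (hp : LinearIndependent K p) {c s : ℕ} {𝒯 : Set (MvPolynomial (Fin n) K)}
    {V : Set (Fin n)} (h : Cov p γ c s 𝒯 V) {F : MvPolynomial (Fin n) K} (hF : F ≠ 0)
    (hg : gr F ∈ Submodule.span (QQ K n) (gr '' 𝒯)) : PhiP p γ (c + s) F ≠ 0 := by
  classical
  obtain ⟨t, ht, Ψ, I, -, -, h3, h4⟩ := h
  have hdet : (Matrix.of fun i j => pderiv (I j) (Ψ i)).det ≠ 0 := by
    intro h0
    apply h3
    rw [h0, map_zero]
  have hspan : gr F ∈ Submodule.span (QQ K n) (Set.range fun j => gr (Ψ j)) := by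
    refine (Submodule.span_le.2 ?_) hg
    rintro _ ⟨x, hx, rfl⟩
    exact h4 x hx
  have halg := isAlgebraic_of_gr Ψ I hdet hspan
  have hind : AlgebraicIndependent K (fun i => PhiP p (fun v => PhiP p γ c (X v)) t (Ψ i)) := by
    refine algInd_PhiP p hp _ Ψ I ?_
    rw [aeval_PhiP_X]
    exact h3
  refine PhiP_mono p γ (Nat.add_le_add_left ht c) ?_
  apply PhiP_PhiP
  have himg : (fun o : Option (Fin t) => o.elim F Ψ) '' (Set.range some) = Set.range Ψ := by
    ext x
    constructor
    · rintro ⟨_, ⟨i, rfl⟩, rfl⟩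
      exact ⟨i, rfl⟩
    · rintro ⟨i, rfl⟩
      exact ⟨some i, ⟨i, rfl⟩, rfl⟩
  refine faithful (k := K) (PhiP p (fun v => PhiP p γ c (X v)) t)
    (fun o : Option (Fin t) => o.elim F Ψ) (Set.range some) ?_ ?_ F
    (Algebra.subset_adjoin ⟨none, rfl⟩) hF
  · have hex : ∀ x : (Set.range (some : Fin t → Option (Fin t))), ∃ j : Fin t,
        some j = (x : Option (Fin t)) := fun x => x.2
    choose f hf using hex
    have hfi : Function.Injective f := by
      intro x y hxy
      apply Subtype.ext
      rw [← hf x, ← hf y, hxy]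
    have h5 := hind.comp f hfi
    have h6 : (fun x : (Set.range (some : Fin t → Option (Fin t))) =>
        PhiP p (fun v => PhiP p γ c (X v)) t
          ((fun o : Option (Fin t) => o.elim F Ψ) (x : Option (Fin t)))) =
        (fun i => PhiP p (fun v => PhiP p γ c (X v)) t (Ψ i)) ∘ f := by
      funext x
      rw [← hf x]
      rfl
    show AlgebraicIndependent K (fun x : (Set.range (some : Fin t → Option (Fin t))) =>
        PhiP p (fun v => PhiP p γ c (X v)) t
          ((fun o : Option (Fin t) => o.elim F Ψ) (x : Option (Fin t))))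
    rw [h6]
    exact h5
  · intro o
    rw [himg]
    cases o with
    | some i =>
      have hmem : Ψ i ∈ Algebra.adjoin K (Set.range Ψ) := Algebra.subset_adjoin ⟨i, rfl⟩
      exact isAlgebraic_algebraMap (⟨Ψ i, hmem⟩ : Algebra.adjoin K (Set.range Ψ))
    | none => exact halg

end Pool.Agent.CWR
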