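import Pool.Agent.CWR.HH

/-!
# CWR: the gradients of the entries of a product
-/

set_option autoImplicit false

namespace Pool.Agent.CWR

open MvPolynomial Pool.Agent.ORB

variable {K : Type*} [Field K] [CharZero K] {n w : ℕ} {σ : Type*} {p : Fin n → Polynomial K}
  {γ : Fin n → MvPolynomial σ K} {blk : Fin n → ℕ}
  {M : ℕ → Matrix (Fin w) (Fin w) (MvPolynomial (Fin n) K)}

/-- If a space of matrices of dimension `r` contains `r` matrices whose entries at the positions
`Rw` form an invertible matrix, then every entry is a fixed combination of the entries at the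
positions `Rw`. -/
private theorem stepca_comb {F : Type*} [Field F] {w r : ℕ}
    (W : Submodule F (Matrix (Fin w) (Fin w) F)) (hW : Module.finrank F W = r)
    (g : Fin r → Matrix (Fin w) (Fin w) F) (hg : ∀ j, g j ∈ W) (Rw : Fin r → Fin w × Fin w)
    (hdet : (Matrix.of fun i j => g j (Rw i).1 (Rw i).2).det ≠ 0) (i j : Fin w) :
    ∃ c : Fin r → F, ∀ X ∈ W, X i j = ∑ k, c k * X (Rw k).1 (Rw k).2 := by
  have hli := linearIndependent_of_minor hdet
  have hspan : Submodule.span F (Set.range g) = W := by
    apply Submodule.eq_of_le_of_finrank_eq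
    · rw [Submodule.span_le]
      rintro _ ⟨j, rfl⟩
      exact hg j
    · rw [finrank_span_eq_card hli, hW, Fintype.card_fin]
  have hu : IsUnit (Matrix.of fun i j => g j (Rw i).1 (Rw i).2).det := isUnit_iff_ne_zero.2 hdet
  have hc : Matrix.vecMul (Matrix.vecMul (fun l => g l i j)
      (Matrix.of fun i j => g j (Rw i).1 (Rw i).2)⁻¹)
      (Matrix.of fun i j => g j (Rw i).1 (Rw i).2) = fun l => g l i j := by
    rw [Matrix.vecMul_vecMul, Matrix.nonsing_inv_mul _ hu, Matrix.vecMul_one]
  refine ⟨Matrix.vecMul (fun l => g l i j) (Matrix.of fun i j => g j (Rw i).1 (Rw i).2)⁻¹, ?_⟩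
  generalize Matrix.vecMul (fun l => g l i j)
    (Matrix.of fun i j => g j (Rw i).1 (Rw i).2)⁻¹ = c at hc
  intro X hX
  rw [← hspan] at hX
  induction hX using Submodule.span_induction with
  | mem x hx =>
    obtain ⟨l, rfl⟩ := hx
    have h1 := congrFun hc l
    simp only [Matrix.vecMul, dotProduct, Matrix.of_apply] at h1
    exact h1.symm
  | zero => simp
  | add x y _ _ hx hy =>
    simp only [Matrix.add_apply, hx, hy, mul_add, Finset.sum_add_distrib]
  | smul t x _ hx =>
    simp only [Matrix.smul_apply, smul_eq_mul, hx, Finset.mul_sum]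
    exact Finset.sum_congr rfl fun k _ => by ring

/-- The gradients of the entries of `T = A * B * D`, where the interior derivatives of the entries
`Rw` of `T` have an invertible minor whose size is the interior rank, are combinations of the
gradients of the entries of `A` and `D` and of the entries `Rw` of `T`. -/
theorem gr_mem_of_minor (hM : Lay blk M) {a a' b' b r : ℕ} (h1 : a ≤ a') (h2 : a' ≤ b')
    (h3 : b' ≤ b)
    (hr : Module.finrank (QQ K n) (dsp M a b (lay blk a' b')) = r) (Rw : Fin r → Fin w × Fin w)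
    (I : Fin r → Fin n) (hI : ∀ j, I j ∈ lay blk a' b')
    (hdet : (Matrix.of fun i j => pderiv (I j) (iprod M a b (Rw i).1 (Rw i).2)).det ≠ 0)
    (i j : Fin w) :
    gr (iprod M a b i j) ∈ Submodule.span (QQ K n) (gr '' ((ents (iprod M a a') ∪
      ents (iprod M b' b)) ∪ Set.range fun k => iprod M a b (Rw k).1 (Rw k).2)) := by
  have hT : iprod M a b = iprod M a a' * iprod M a' b' * iprod M b' b := by
    rw [iprod_mul M h1 h2, iprod_mul M (h1.trans h2) h3]
  have hmin : (Matrix.of fun i j =>
      mq (dm (I j) (iprod M a b)) (Rw i).1 (Rw i).2 :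
        Matrix (Fin r) (Fin r) (QQ K n)).det ≠ 0 := by
    intro h0
    apply hdet
    apply IsFractionRing.injective (MvPolynomial (Fin n) K) (QQ K n)
    rw [map_zero, RingHom.map_det, ← h0]
    rfl
  obtain ⟨c, hc⟩ := stepca_comb (dsp M a b (lay blk a' b')) hr
    (fun j => mq (dm (I j) (iprod M a b))) (fun j => Submodule.subset_span ⟨I j, hI j, rfl⟩) Rw
    hmin i j
  set φ := algebraMap (MvPolynomial (Fin n) K) (QQ K n) with hφ
  set E : Fin w → Fin w → (Fin n → QQ K n) := fun i j =>
    ∑ k, φ ((iprod M a' b' * iprod M b' b) k j) • gr (iprod M a a' i k) +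
      ∑ k, φ ((iprod M a a' * iprod M a' b') i k) • gr (iprod M b' b k j) with hEdef
  have hE : ∀ i j, E i j ∈ Submodule.span (QQ K n) (gr '' ((ents (iprod M a a') ∪
      ents (iprod M b' b)) ∪ Set.range fun k => iprod M a b (Rw k).1 (Rw k).2)) := by
    intro i j
    refine Submodule.add_mem _ (Submodule.sum_mem _ fun k _ => Submodule.smul_mem _ _
      (Submodule.subset_span ⟨_, Or.inl (Or.inl ⟨i, k, rfl⟩), rfl⟩))
      (Submodule.sum_mem _ fun k _ => Submodule.smul_mem _ _
      (Submodule.subset_span ⟨_, Or.inl (Or.inr ⟨k, j, rfl⟩), rfl⟩))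
  have hEv : ∀ v i j, E i j v =
      φ ((dm v (iprod M a a') * (iprod M a' b' * iprod M b' b) +
        iprod M a a' * iprod M a' b' * dm v (iprod M b' b)) i j) := by
    intro v i j
    simp only [hEdef, Pi.add_apply, Finset.sum_apply, Pi.smul_apply, smul_eq_mul, gr,
      Matrix.add_apply, Matrix.mul_apply (M := dm v (iprod M a a')),
      Matrix.mul_apply (M := iprod M a a' * iprod M a' b'), map_add, map_sum, map_mul]
    congr 1
    exact Finset.sum_congr rfl fun k _ => mul_comm _ _
  have hE0 : ∀ v ∈ lay blk a' b', ∀ i j, E i j v = 0 := by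
    intro v hv i j
    rw [hEv, dm_iprod_eq_zero hM (Or.inr hv.1), dm_iprod_eq_zero hM (Or.inl hv.2)]
    simp
  have hE1 : ∀ v, v ∉ lay blk a' b' → ∀ i j, E i j v = φ (pderiv v (iprod M a b i j)) := by
    intro v hv i j
    have hv' : blk v < a' ∨ b' ≤ blk v := by
      by_contra hcon
      push Not at hcon
      exact hv hcon
    have h5 : dm v (iprod M a b) =
        dm v (iprod M a a') * (iprod M a' b' * iprod M b' b) +
          iprod M a a' * iprod M a' b' * dm v (iprod M b' b) := by
      rw [hT, dm_mul, dm_mul, dm_iprod_eq_zero hM hv', Matrix.mul_zero, add_zero,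
        Matrix.mul_assoc]
    rw [hEv, ← h5]
    rfl
  have key : gr (iprod M a b i j) = ∑ k, c k • gr (iprod M a b (Rw k).1 (Rw k).2) +
      (E i j - ∑ k, c k • E (Rw k).1 (Rw k).2) := by
    funext v
    simp only [Pi.add_apply, Pi.sub_apply, Finset.sum_apply, Pi.smul_apply, smul_eq_mul]
    by_cases hv : v ∈ lay blk a' b'
    · have h6 := hc (mq (dm v (iprod M a b))) (Submodule.subset_span ⟨v, hv, rfl⟩)
      simp only [hE0 v hv, mul_zero, Finset.sum_const_zero, sub_zero, add_zero]
      exact h6
    · simp only [hE1 v hv]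
      rw [add_sub_left_comm]
      simp [gr, hφ]
  rw [key]
  refine Submodule.add_mem _ (Submodule.sum_mem _ fun k _ => Submodule.smul_mem _ _
    (Submodule.subset_span ⟨_, Or.inr ⟨k, rfl⟩, rfl⟩))
    (Submodule.sub_mem _ (hE i j) (Submodule.sum_mem _ fun k _ => Submodule.smul_mem _ _ (hE _ _)))

end Pool.Agent.CWR
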