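import Mathlib

/-!
# CWR: greedy choice of a basis (Mathlib only)
-/

set_option autoImplicit false

namespace Pool.Agent.CWR

theorem greedy {F V : Type*} [Field F] [AddCommGroup V] [Module F V] {n : ℕ} (g : Fin n → V)
    (β : Fin n → ℕ) (S : Finset (Fin n)) :
    ∃ I : Finset (Fin n), I ⊆ S ∧ LinearIndependent F (fun v : I => g v) ∧
      ∀ l, ∀ v ∈ S, β v ≤ l → g v ∈ Submodule.span F (g '' {u | u ∈ I ∧ β u ≤ l}) := by
  classical
  have key : ∃ I : Finset (Fin n), I ⊆ S ∧ LinearIndepOn F g (I : Set (Fin n)) ∧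
      ∀ l, ∀ v ∈ S, β v ≤ l → g v ∈ Submodule.span F (g '' {u | u ∈ I ∧ β u ≤ l}) := by
    refine Finset.induction_on_max_value (motive := fun S => ∃ I : Finset (Fin n), I ⊆ S ∧
      LinearIndepOn F g (I : Set (Fin n)) ∧
      ∀ l, ∀ v ∈ S, β v ≤ l → g v ∈ Submodule.span F (g '' {u | u ∈ I ∧ β u ≤ l})) β S ?_ ?_
    · refine ⟨∅, Finset.Subset.refl _, by simp, ?_⟩
      · intro l v hv
        exact absurd hv (Finset.notMem_empty v)
    · intro a s has hmax ih
      obtain ⟨I, hI, hli, hsp⟩ := ih
      by_cases ha : g a ∈ Submodule.span F (g '' (I : Set (Fin n)))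
      · refine ⟨I, hI.trans (Finset.subset_insert a s), hli, fun l v hv hl => ?_⟩
        rcases Finset.mem_insert.1 hv with rfl | hv
        · have e : {u | u ∈ I ∧ β u ≤ l} = (I : Set (Fin n)) := by
            ext u
            constructor
            · exact fun h => h.1
            · exact fun h => ⟨h, (hmax u (hI h)).trans hl⟩
          rw [e]; exact ha
        · exact hsp l v hv hl
      · have haI : a ∉ I := fun h => has (hI h)
        refine ⟨insert a I, Finset.insert_subset_insert a hI, ?_, fun l v hv hl => ?_⟩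
        · rw [Finset.coe_insert, linearIndepOn_insert (by simpa using haI)]
          exact ⟨hli, ha⟩
        · rcases Finset.mem_insert.1 hv with rfl | hv
          · exact Submodule.subset_span ⟨v, ⟨Finset.mem_insert_self v I, hl⟩, rfl⟩
          · refine Submodule.span_mono ?_ (hsp l v hv hl)
            refine Set.image_mono ?_
            rintro u ⟨h1, h2⟩
            exact ⟨Finset.mem_insert_of_mem h1, h2⟩
  obtain ⟨I, h1, h2, h3⟩ := key
  exact ⟨I, h1, h2, h3⟩

end Pool.Agent.CWR
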