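import Pool.Agent.CWR.Cancel
import Pool.Agent.CWR.Choose

/-!
# CWR: the marked variables and the ranks of the runs
-/

set_option autoImplicit false

namespace Pool.Agent.CWR

open MvPolynomial

variable {K : Type*} [Field K] {n w : ℕ} {blk : Fin n → ℕ}
  {M : ℕ → Matrix (Fin w) (Fin w) (MvPolynomial (Fin n) K)}

/- PLAN. `greedy` for `g v = mq (dm v (iprod M (d 0) (d N)))`, `β = blk`,
`S = {v | v ∈ lay blk (d 1) (d (N-1))}` gives `I`; `r = I.card` is the dimension of the span
(`finrank_span_eq_card`), `r ≥ 1`. Let `m` be the index of the block containing the variable of `I`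
with the largest `blk` (`1 ≤ m ≤ N - 2`; blocks cover `[d 0, d N)`: the greatest `m` with
`d m ≤ blk v`).  The `mq (dm v T')`, `T' = iprod M (d 0) (d (m + 2))`, are independent because
`mq (dm v T) = mq (dm v T') * mq (iprod M (d (m + 2)) (d N))`. Runs: let `k < t ≤ m` with no variable
of `I` in `lay blk (d k) (d t)`; by `cancel` it is enough to bound the dimension of the span of the
`g v` with `v ∈ lay blk (d (k+1)) (d (t-1))`; those `v` are in `S` and `blk v < d t`, so `g v` is in the
span of `g '' {u ∈ I | blk u ≤ blk v}`, a set without the last variable, of cardinality `≤ r - 1`. -/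
theorem stepR (hM : Lay blk M) {ρ : ℕ} {d : ℕ → ℕ} {N : ℕ} (hd : IsChain M ρ d N) (hN : 2 ≤ N)
    {r : ℕ} (hr : 1 ≤ r)
    (hdim : Module.finrank (QQ K n) (dsp M (d 0) (d N) (lay blk (d 1) (d (N - 1)))) = r) :
    ∃ (I : Finset (Fin n)) (m : ℕ) (f : Fin r → Fin n), I.card = r ∧ (∀ j, f j ∈ I) ∧
      m + 2 ≤ N ∧ (∀ v ∈ I, v ∈ lay blk (d 1) (d (N - 1))) ∧
      (∀ v ∈ I, v ∈ lay blk (d 0) (d (m + 1))) ∧ (∃ v ∈ I, v ∈ lay blk (d m) (d (m + 1))) ∧
      LinearIndependent (QQ K n) (fun j => mq (dm (f j) (iprod M (d 0) (d (m + 2))))) ∧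
      ∀ k t, k < t → t ≤ m → (∀ v ∈ I, v ∉ lay blk (d k) (d t)) →
        Module.finrank (QQ K n) (dsp M (d k) (d t) (lay blk (d (k + 1)) (d (t - 1)))) ≤ r - 1 := by
  classical
  set g : Fin n → Matrix (Fin w) (Fin w) (QQ K n) := fun v => mq (dm v (iprod M (d 0) (d N))) with hg
  obtain ⟨I, hIS, hIli, hIsp⟩ := greedy (F := QQ K n) g blk
    (Finset.univ.filter fun v => v ∈ lay blk (d 1) (d (N - 1)))
  have hI1 : ∀ v ∈ I, v ∈ lay blk (d 1) (d (N - 1)) := fun v hv => (Finset.mem_filter.1 (hIS hv)).2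
  have hS : ∀ v ∈ lay blk (d 1) (d (N - 1)),
      v ∈ Finset.univ.filter fun v => v ∈ lay blk (d 1) (d (N - 1)) := fun v hv =>
    Finset.mem_filter.2 ⟨Finset.mem_univ v, hv⟩
  -- the cardinality
  have hspan : dsp M (d 0) (d N) (lay blk (d 1) (d (N - 1))) =
      Submodule.span (QQ K n) (Set.range fun v : I => g v) := by
    have hr : (Set.range fun v : I => g v) = g '' (I : Set (Fin n)) := by
      rw [Set.image_eq_range]
      rfl
    rw [hr]
    apply le_antisymm
    · refine Submodule.span_le.2 ?_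
      rintro _ ⟨v, hv, rfl⟩
      have h1 := hIsp (blk v) v (hS v hv) le_rfl
      refine Submodule.span_mono (Set.image_mono ?_) h1
      rintro u ⟨hu, -⟩
      exact hu
    · refine Submodule.span_mono (Set.image_mono ?_)
      intro v hv
      exact hI1 v hv
  have hcard : I.card = r := by
    rw [hspan, finrank_span_eq_card hIli, Fintype.card_coe] at hdim
    exact hdim
  have hne : I.Nonempty := by
    rw [← Finset.card_pos, hcard]
    exact hr
  obtain ⟨x, hxI, hmax⟩ := Finset.exists_max_image I blk hne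
  obtain ⟨hx1, hx2⟩ := hI1 x hxI
  have hN3 : 3 ≤ N := by
    by_contra hc
    have hN2 : N = 2 := by omega
    subst hN2
    exact absurd hx2 (not_lt.2 hx1)
  -- the block of `x`
  obtain ⟨m, hm1, hmN, hm2, hm3⟩ : ∃ m, 1 ≤ m ∧ m + 2 ≤ N ∧ d m ≤ blk x ∧ blk x < d (m + 1) := by
    have hP : d (Nat.findGreatest (fun j => d j ≤ blk x) (N - 2)) ≤ blk x :=
      Nat.findGreatest_spec (P := fun j => d j ≤ blk x) (m := 1) (by omega) hx1
    have h1 : 1 ≤ Nat.findGreatest (fun j => d j ≤ blk x) (N - 2) :=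
      Nat.le_findGreatest (by omega) hx1
    have h2 : Nat.findGreatest (fun j => d j ≤ blk x) (N - 2) ≤ N - 2 := Nat.findGreatest_le _
    refine ⟨Nat.findGreatest (fun j => d j ≤ blk x) (N - 2), h1, by omega, hP, ?_⟩
    rcases Nat.lt_or_ge (Nat.findGreatest (fun j => d j ≤ blk x) (N - 2)) (N - 2) with h3 | h3
    · have h4 := Nat.findGreatest_is_greatest (P := fun j => d j ≤ blk x)
        (Nat.lt_succ_self (Nat.findGreatest (fun j => d j ≤ blk x) (N - 2))) (by omega)
      exact not_le.1 h4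
    · have h4 : Nat.findGreatest (fun j => d j ≤ blk x) (N - 2) + 1 = N - 1 := by omega
      rw [h4]
      exact hx2
  have h01 : d 0 ≤ d 1 := hd.mono (Nat.zero_le 1) (by omega)
  refine ⟨I, m, fun j => ((I.equivFinOfCardEq hcard).symm j : Fin n), hcard, fun j => ?_, hmN, hI1,
    fun v hv => ⟨h01.trans (hI1 v hv).1, (hmax v hv).trans_lt hm3⟩, ⟨x, hxI, hm2, hm3⟩, ?_, ?_⟩
  · exact ((I.equivFinOfCardEq hcard).symm j).2
  · have hli : LinearIndependent (QQ K n)
        (fun j : Fin r => g ((I.equivFinOfCardEq hcard).symm j : Fin n)) :=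
      hIli.comp _ (I.equivFinOfCardEq hcard).symm.injective
    refine LinearIndependent.of_comp (LinearMap.mulRight (QQ K n) (mq (iprod M (d (m + 2)) (d N)))) ?_
    have he : (⇑(LinearMap.mulRight (QQ K n) (mq (iprod M (d (m + 2)) (d N)))) ∘ fun j : Fin r =>
        mq (dm ((I.equivFinOfCardEq hcard).symm j : Fin n) (iprod M (d 0) (d (m + 2))))) =
        fun j : Fin r => g ((I.equivFinOfCardEq hcard).symm j : Fin n) := by
      funext j
      have hv := ((I.equivFinOfCardEq hcard).symm j).2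
      have h1 := hI1 _ hv
      have h2 := hmax _ hv
      have h3 : d (m + 1) ≤ d (m + 2) := hd.mono (Nat.le_succ _) hmN
      show mq (dm _ (iprod M (d 0) (d (m + 2)))) * mq (iprod M (d (m + 2)) (d N)) =
        mq (dm _ (iprod M (d 0) (d N)))
      rw [dm_split hM (a := d 0) (b := d N) (c := d 0) (d := d (m + 2)) le_rfl (h01.trans h1.1)
        (h2.trans_lt (hm3.trans_le h3)) (hd.mono hmN le_rfl), iprod_self, one_mul, mq_mul]
    rw [he]
    exact hli
  · intro k t hkt htm _
    refine (cancel hM hd hkt (by omega) subset_rfl).trans ?_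
    have hsub : dsp M (d 0) (d N) (lay blk (d (k + 1)) (d (t - 1))) ≤
        Submodule.span (QQ K n) (g '' ((I.erase x : Finset (Fin n)) : Set (Fin n))) := by
      refine Submodule.span_le.2 ?_
      rintro _ ⟨v, ⟨hv1, hv2⟩, rfl⟩
      have h1 : d 1 ≤ d (k + 1) := hd.mono (by omega) (by omega)
      have h2 : d (t - 1) ≤ d (N - 1) := hd.mono (by omega) (by omega)
      have h3 : d (t - 1) ≤ d m := hd.mono (by omega) (by omega)
      have h4 := hIsp (blk v) v (hS v ⟨h1.trans hv1, hv2.trans_le h2⟩) le_rfl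
      refine Submodule.span_mono (Set.image_mono ?_) h4
      rintro u ⟨hu, hu2⟩
      rw [Finset.mem_coe, Finset.mem_erase]
      refine ⟨?_, hu⟩
      rintro rfl
      exact absurd (hm2.trans hu2) (not_le.2 (hv2.trans_le h3))
    have hfin : Module.finrank (QQ K n)
        (Submodule.span (QQ K n) (g '' ((I.erase x : Finset (Fin n)) : Set (Fin n)))) ≤
        (I.erase x).card := by
      rw [← Finset.coe_image]
      exact (finrank_span_finset_le_card _).trans Finset.card_image_le
    rw [Finset.card_erase_of_mem hxI, hcard] at hfin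
    exact (Submodule.finrank_mono hsub).trans hfin

end Pool.Agent.CWR
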