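import Pool.Agent.CWR.StepA
import Pool.Agent.CWR.StepB
import Pool.Agent.CWR.StepC
import Pool.Agent.CWR.StepR

/-!
# CWR: the two inductions
-/

set_option autoImplicit false

namespace Pool.Agent.CWR

open MvPolynomial Pool.Agent.ORB

variable {K : Type*} [Field K] [CharZero K] {n w : ℕ} {σ : Type*} {p : Fin n → Polynomial K}
  {γ : Fin n → MvPolynomial σ K} {blk : Fin n → ℕ}
  {M : ℕ → Matrix (Fin w) (Fin w) (MvPolynomial (Fin n) K)}

theorem BB.mono {ρ C C' r : ℕ} (h : BB blk M p γ ρ C r) (hC : C ≤ C') : BB blk M p γ ρ C' r := by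
  intro d N hd hN hr
  obtain ⟨Rw, I, hI, hdet⟩ := h d N hd hN hr
  exact ⟨Rw, I, hI, PhiP_mono p γ hC hdet⟩

/-- one step of the inner induction -/
theorem inner_step (hM : Lay blk M) {q c s ρ C r : ℕ}
    (hq : LCov blk M p γ c q) (hp : LinearIndependent K p)
    (h : HH blk M p γ (ρ + 1) c s) (hC : c + 2 * (s + q) ≤ C) (hrw : r + 1 ≤ w ^ 2)
    (hB : ∀ r' ≤ r, BB blk M p γ ρ C r') :
    BB blk M p γ ρ (C + ((r + 1) * (2 * (s + q) + r) + (2 * (r + 1) + 1) * (s + q))) (r + 1) := by
  intro d N hd hN hr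
  have hcC : c ≤ C := by omega
  have hCC := stepC hM hq h hcC hB
  obtain ⟨I, m, f, hcard, hf, hm, hI1, hI0, hIm, hli, hrun⟩ := stepR hM hd hN (by omega) hr
  obtain ⟨Rw, hdet⟩ := exists_minor hli
  have hdet' : (Matrix.of fun i j =>
      pderiv (f j) (iprod M (d 0) (d (m + 2)) (Rw i).1 (Rw i).2)).det ≠ 0 := by
    intro h0
    apply hdet
    have h1 := congrArg (algebraMap (MvPolynomial (Fin n) K) (QQ K n)) h0
    rw [map_zero, RingHom.map_det] at h1
    exact h1
  have h1 := stepA hM hq hp h hcC hd I hm hI0 hIm (s' := 2 * (s + q) + r)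
    (fun k t hk ht hkt => by
      have h2 := hCC (fun i => d (k + i)) (t - k) (hd.sub hk (by omega)) (by omega)
      have e1 : k + (t - k) = t := by omega
      have e2 : k + (t - k - 1) = t - 1 := by omega
      have h4 := hrun k t hk ht hkt
      rw [Nat.add_sub_cancel] at h4
      simp only [Nat.add_zero] at h2
      rw [e2, e1] at h2
      exact h2 h4) hrw hcard f hf Rw hdet'
  obtain ⟨Rw', h3⟩ := stepB hM hq hp h hd (C := C + ((r + 1) * (2 * (s + q) + r) +
    (2 * (r + 1) + 1) * (s + q))) (by omega) hm f (fun j => hI0 _ (hf j)) Rw h1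
  exact ⟨Rw', f, fun j => hI1 _ (hf j), h3⟩

/-- the levels of the inner induction -/
theorem inner (hM : Lay blk M) {q c s ρ : ℕ}
    (hq : LCov blk M p γ c q) (hp : LinearIndependent K p)
    (h : HH blk M p γ (ρ + 1) c s) :
    ∀ R, R ≤ w ^ 2 → ∀ r ≤ R, BB blk M p γ ρ (c + 2 * (s + q) + R * costR w q s) r := by
  intro R
  induction R with
  | zero =>
    intro _ r hr
    obtain rfl : r = 0 := by omega
    intro d N hd hN hr
    refine ⟨Fin.elim0, Fin.elim0, fun j => j.elim0, ?_⟩
    rw [Matrix.det_isEmpty, map_one]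
    exact one_ne_zero
  | succ R ih =>
    intro hR r hr
    have hle : c + 2 * (s + q) + R * costR w q s ≤ c + 2 * (s + q) + (R + 1) * costR w q s :=
      Nat.add_le_add_left (Nat.mul_le_mul_right _ (Nat.le_succ _)) _
    rcases Nat.lt_or_ge r (R + 1) with h1 | h1
    · exact (ih (by omega) r (by omega)).mono hle
    · obtain rfl : r = R + 1 := by omega
      have h2 := inner_step hM hq hp h (C := c + 2 * (s + q) + R * costR w q s) (by omega) hR
        (ih (by omega))
      refine h2.mono ?_
      have h3 : (R + 1) * (2 * (s + q) + R) + (2 * (R + 1) + 1) * (s + q) ≤ costR w q s := by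
        unfold costR
        have h4 : (R + 1) * (2 * (s + q) + R) ≤ (w ^ 2) * (2 * (s + q) + w ^ 2) :=
          Nat.mul_le_mul hR (by omega)
        have h5 : (2 * (R + 1) + 1) * (s + q) ≤ (2 * w ^ 2 + 1) * (s + q) :=
          Nat.mul_le_mul_right _ (by omega)
        calc _ ≤ (w ^ 2) * (2 * (s + q) + w ^ 2) + (2 * w ^ 2 + 1) * (s + q) := by omega
          _ ≤ _ := by
            have e1 : (w ^ 2 + 2) * (2 * (s + q) + w ^ 2) =
              (w ^ 2) * (2 * (s + q) + w ^ 2) + 2 * (2 * (s + q) + w ^ 2) := by ring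
            have e2 : (2 * w ^ 2 + 1) * (s + q) = 2 * w ^ 2 * (s + q) + (s + q) := by ring
            rw [e1, e2]
            omega
      have h6 : (R + 1) * costR w q s = R * costR w q s + costR w q s := by ring
      calc _ = c + 2 * (s + q) + R * costR w q s +
            ((R + 1) * (2 * (s + q) + R) + (2 * (R + 1) + 1) * (s + q)) := by ring
        _ ≤ c + 2 * (s + q) + R * costR w q s + costR w q s := Nat.add_le_add_left h3 _
        _ = _ := by rw [h6, Nat.add_assoc]

/-- one step of the outer induction -/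
theorem outer_step (hM : Lay blk M) {q c s ρ : ℕ}
    (hq : LCov blk M p γ c q) (hp : LinearIndependent K p)
    (h : HH blk M p γ (ρ + 1) c s) :
    HH blk M p γ ρ (c + 2 * (s + q) + w ^ 2 * costR w q s) (3 * s + 2 * q + w ^ 2) := by
  intro a b hab hor
  have hlev : c ≤ c + 2 * (s + q) + w ^ 2 * costR w q s := by omega
  by_cases hbig : a = b ∨ ρ + 1 ≤ rk (iprod M a b)
  · exact (h a b hab hbig).mono hlev (by omega) subset_rfl subset_rfl
  · push Not at hbig
    have hr : rk (iprod M a b) = ρ := by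
      rcases hor with h1 | h1
      · exact absurd h1 hbig.1
      · omega
    obtain ⟨d, N, hd, hN, hd0, hdN, htail⟩ := exists_chain M (lt_of_le_of_ne hab hbig.1) hr
    have hCC : CC blk M p γ ρ (c + 2 * (s + q) + w ^ 2 * costR w q s) (w ^ 2)
        (2 * (s + q) + w ^ 2) := stepC hM hq h hlev (inner hM hq hp h (w ^ 2) le_rfl)
    have h1 := hCC d N hd hN (by
      have h2 := Submodule.finrank_le (dsp M (d 0) (d N) (lay blk (d 1) (d (N - 1))))
      rw [Module.finrank_matrix, Module.finrank_self, mul_one, Fintype.card_fin] at h2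
      rw [sq]
      exact h2)
    have h3 : Cov p γ (c + 2 * (s + q) + w ^ 2 * costR w q s) s (ents (iprod M (d N) b))
        (lay blk (d N) b) := by
      refine (h (d N) b hdN ?_).mono hlev le_rfl subset_rfl subset_rfl
      rcases htail with h4 | h4
      · exact Or.inl h4
      · exact Or.inr h4
    have h5 := Cov.union h1 h3 (fun v hv hv' => by
      have h6 := hv.1
      have h7 := hv'.2
      omega)
    have hmid : d 0 ≤ d N := hd.mono (Nat.zero_le _) le_rfl
    rw [hd0] at h5 hmid
    refine Cov.mono (Cov.of_adjoin h5 (𝒯' := ents (iprod M a b)) ?_) le_rfl (by omega) subset_rfl ?_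
    · rintro x ⟨i, j, rfl⟩
      rw [← iprod_mul M hmid hdN]
      exact ents_mul_mem (fun i j => Algebra.subset_adjoin (Or.inl ⟨i, j, rfl⟩))
        (fun i j => Algebra.subset_adjoin (Or.inr ⟨i, j, rfl⟩)) i j
    · rintro v (hv | hv)
      · exact ⟨hv.1, lt_of_lt_of_le hv.2 hdN⟩
      · exact ⟨le_trans hmid hv.1, hv.2⟩

theorem outer (hM : Lay blk M) {c q : ℕ}
    (hq : LCov blk M p γ c q) (hp : LinearIndependent K p) :
    ∀ j ≤ w, HH blk M p γ (w + 1 - j) (c + lamR w q j) (sR w q j) := by
  intro j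
  induction j with
  | zero =>
    intro _ a b hab hor
    have h1 : a = b := by
      rcases hor with h1 | h1
      · exact h1
      · have h2 := rk_le (iprod M a b)
        omega
    subst h1
    refine Cov.empty ?_
    rintro x ⟨i, j, rfl⟩
    rw [iprod_self]
    funext v
    unfold gr
    rw [Matrix.one_apply]
    split_ifs <;> simp
  | succ j ih =>
    intro hj
    have e : w + 1 - j = (w + 1 - (j + 1)) + 1 := by omega
    have h1 := ih (by omega)
    rw [e] at h1
    have h2 := outer_step hM (hq.mono (Nat.le_add_right _ _)) hp h1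
    have e2 : c + lamR w q (j + 1) = c + lamR w q j + 2 * (sR w q j + q) +
        w ^ 2 * costR w q (sR w q j) := by
      show c + (lamR w q j + 2 * (sR w q j + q) + w ^ 2 * costR w q (sR w q j)) = _
      rw [← Nat.add_assoc, ← Nat.add_assoc]
    rw [e2]
    exact h2

/-- **Theorem R** in the coordinates `y`: nonzero entries of products are hit. -/
theorem hit_ents (hM : Lay blk M) {c q : ℕ}
    (hq : LCov blk M p γ c q) (hp : LinearIndependent K p)
    (L : ℕ) {F : MvPolynomial (Fin n) K} (hF : F ≠ 0)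
    (hm : F ∈ Submodule.span K (ents (iprod M 0 L))) : PhiP p γ (c + EE w q) F ≠ 0 := by
  have h0 : iprod M 0 L ≠ 0 := by
    intro h0
    apply hF
    have h1 : ents (iprod M 0 L) ⊆ {0} := by
      rintro x ⟨i, j, rfl⟩
      rw [h0]
      rfl
    have h2 := Submodule.span_mono (R := K) h1 hm
    rwa [Submodule.span_zero_singleton, Submodule.mem_bot] at h2
  have hw : 1 ≤ w := le_trans (one_le_rk h0) (rk_le _)
  have h1 := outer (γ := γ) hM hq hp w le_rfl
  have e : w + 1 - w = 1 := by omega
  rw [e] at h1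
  have e2 : c + EE w q = c + lamR w q w + sR w q w := by
    unfold EE
    rw [Nat.add_assoc]
  rw [e2]
  refine hit_of_cov hp (h1 0 L (Nat.zero_le _) (Or.inr (one_le_rk h0))) hF ?_
  refine gr_mem_of_adjoin _ (ents (iprod M 0 L))
    (fun x hx => Submodule.subset_span (Set.mem_image_of_mem _ hx)) ?_
  have h3 : Submodule.span K (ents (iprod M 0 L)) ≤
      Subalgebra.toSubmodule (Algebra.adjoin K (ents (iprod M 0 L))) :=
    Submodule.span_le.mpr Algebra.subset_adjoin
  exact h3 hm

end Pool.Agent.CWR
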