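import Pool.Agent.CWR.RI

/-!
# CWR: sums and products of programs
-/

set_option autoImplicit false

namespace Pool.Agent.CWR

open MvPolynomial

variable {K : Type*} [Field K] {n : ℕ}

/-- `F = u^T M_0 ... M_(L-1) v` with matrices of size `w` whose entries are in `𝒜 l` -/
def RA (𝒜 : ℕ → Subalgebra K (MvPolynomial (Fin n) K)) (L w : ℕ)
    (F : MvPolynomial (Fin n) K) : Prop :=
  ∃ (M : ℕ → Matrix (Fin w) (Fin w) (MvPolynomial (Fin n) K)) (u v : Fin w → K),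
    (∀ l i j, M l i j ∈ 𝒜 l) ∧ F = ∑ i, ∑ j, C (u i) * iprod M 0 L i j * C (v j)

variable {𝒜 : ℕ → Subalgebra K (MvPolynomial (Fin n) K)} {L L' w w' : ℕ}
  {F G : MvPolynomial (Fin n) K}

theorem RA_iff : RA 𝒜 L w F ↔ RI 𝒜 L (Fin w) F := Iff.rfl

/- PLAN. `finSumFinEquiv`. -/
theorem RA.add (h : RA 𝒜 L w F) (h' : RA 𝒜 L w' G) : RA 𝒜 L (w + w') (F + G) :=
  RA_iff.2 ((RI.add (RA_iff.1 h) (RA_iff.1 h')).equiv finSumFinEquiv)

/- PLAN. `finProdFinEquiv`. -/
theorem RA.mul (h : RA 𝒜 L w F) (h' : RA 𝒜 L w' G) : RA 𝒜 L (w * w') (F * G) :=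
  RA_iff.2 ((RI.mul (RA_iff.1 h) (RA_iff.1 h')).equiv finProdFinEquiv)

private theorem ra_one_mem (A : Subalgebra K (MvPolynomial (Fin n) K)) (i j : Fin w) :
    (1 : Matrix (Fin w) (Fin w) (MvPolynomial (Fin n) K)) i j ∈ A := by
  rw [Matrix.one_apply]
  split_ifs
  · exact one_mem A
  · exact zero_mem A

private theorem ra_iprod_one {M : ℕ → Matrix (Fin w) (Fin w) (MvPolynomial (Fin n) K)} {a b : ℕ}
    (h : ∀ l, a ≤ l → l < b → M l = 1) : iprod M a b = 1 := by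
  unfold iprod
  refine List.prod_eq_one fun x hx => ?_
  obtain ⟨l, hl, rfl⟩ := List.mem_map.1 hx
  rw [List.mem_range'_1] at hl
  exact h l hl.1 (by omega)

private theorem ra_iprod_congr {M N : ℕ → Matrix (Fin w) (Fin w) (MvPolynomial (Fin n) K)} {a b : ℕ}
    (h : ∀ l, a ≤ l → l < b → M l = N l) : iprod M a b = iprod N a b := by
  unfold iprod
  congr 1
  refine List.map_congr_left fun l hl => ?_
  rw [List.mem_range'_1] at hl
  exact h l hl.1 (by omega)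

/- PLAN. `M l = 1`, `u = 0`. -/
theorem RA.zero : RA 𝒜 L w 0 := by
  refine ⟨fun _ => 1, 0, 0, fun l i j => ra_one_mem _ i j, ?_⟩
  simp

/- PLAN. `M l = 1`, `u = v = 1`. -/
theorem RA.one : RA 𝒜 L 1 1 := by
  refine ⟨fun _ => 1, 1, 1, fun l i j => ra_one_mem _ i j, ?_⟩
  rw [ra_iprod_one (fun _ _ _ => rfl)]
  simp

/- PLAN. `-u`. -/
theorem RA.neg (h : RA 𝒜 L w F) : RA 𝒜 L w (-F) := by
  obtain ⟨M, u, v, hM, hF⟩ := h
  refine ⟨M, -u, v, hM, ?_⟩
  rw [hF, ← Finset.sum_neg_distrib]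
  refine Finset.sum_congr rfl fun i _ => ?_
  rw [← Finset.sum_neg_distrib]
  refine Finset.sum_congr rfl fun j _ => ?_
  rw [Pi.neg_apply, C_neg]
  ring

/- PLAN. `RA.add` with `RA.zero` of width `w' - w`. -/
theorem RA.mono (h : RA 𝒜 L w F) (hw : w ≤ w') : RA 𝒜 L w' F := by
  have h1 := h.add (RA.zero (𝒜 := 𝒜) (L := L) (w := w' - w))
  rwa [add_zero, Nat.add_sub_cancel' hw] at h1

/- PLAN. Replace `M l` by `1` for `l ≥ L` (`iprod_mul` for `0 ≤ L ≤ L'`, the second factor is a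
product of ones). -/
theorem RA.len (h : RA 𝒜 L w F) (hL : L ≤ L') : RA 𝒜 L' w F := by
  obtain ⟨M, u, v, hM, hF⟩ := h
  refine ⟨fun l => if l < L then M l else 1, u, v, fun l i j => ?_, ?_⟩
  · show (if l < L then M l else 1) i j ∈ 𝒜 l
    by_cases hl : l < L
    · rw [if_pos hl]
      exact hM l i j
    · rw [if_neg hl]
      exact ra_one_mem _ i j
  · have e : iprod (fun l => if l < L then M l else 1) 0 L' = iprod M 0 L := by
      rw [← iprod_mul _ (Nat.zero_le L) hL, ra_iprod_one (a := L) (b := L'), mul_one]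
      · exact ra_iprod_congr fun l _ hl => if_pos hl
      · exact fun l hl _ => if_neg (by omega)
    rw [e]
    exact hF

end Pool.Agent.CWR
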