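import Pool.Agent.CWR.HH

/-!
# CWR: interior ranks of subchains
-/

set_option autoImplicit false

namespace Pool.Agent.CWR

open MvPolynomial

variable {K : Type*} [Field K] {n w : ℕ} {blk : Fin n → ℕ}
  {M : ℕ → Matrix (Fin w) (Fin w) (MvPolynomial (Fin n) K)}

/-- The elements of the span of the derivatives by variables of the inner blocks are divisible by
the first block on the left and by the last block on the right. -/
private theorem cwrCancel_factor (hM : Lay blk M) {a b c e : ℕ} (h1 : a ≤ c) (h2 : e ≤ b)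
    {S : Set (Fin n)} (hS : S ⊆ lay blk c e) {Z : Matrix (Fin w) (Fin w) (QQ K n)}
    (hZ : Z ∈ dsp M a b S) :
    ∃ W : Matrix (Fin w) (Fin w) (QQ K n),
      Z = mq (iprod M a c) * W * mq (iprod M e b) := by
  unfold dsp at hZ
  induction hZ using Submodule.span_induction with
  | mem x hx =>
    obtain ⟨v, hv, rfl⟩ := hx
    have h3 := hS hv
    refine ⟨mq (dm v (iprod M c e)), ?_⟩
    change mq (dm v (iprod M a b)) = _
    rw [dm_split hM h1 h3.1 h3.2 h2, mq_mul, mq_mul]
  | zero => exact ⟨0, by rw [Matrix.mul_zero, Matrix.zero_mul]⟩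
  | add x y _ _ hx hy =>
    obtain ⟨W1, rfl⟩ := hx
    obtain ⟨W2, rfl⟩ := hy
    exact ⟨W1 + W2, by rw [Matrix.mul_add, Matrix.add_mul]⟩
  | smul t x _ hx =>
    obtain ⟨W, rfl⟩ := hx
    exact ⟨t • W, by rw [Matrix.mul_smul, Matrix.smul_mul]⟩

/-- A linear map which is injective on a subspace does not decrease its dimension. -/
private theorem cwrCancel_finrank {F V : Type*} [Field F] [AddCommGroup V] [Module F V]
    [FiniteDimensional F V] (T : V →ₗ[F] V) (U : Submodule F V)
    (h : ∀ z ∈ U, T z = 0 → z = 0) :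
    Module.finrank F U ≤ Module.finrank F (U.map T) := by
  have h1 : Function.Injective (T.domRestrict U) := by
    rw [injective_iff_map_eq_zero]
    intro z hz
    exact Subtype.ext (h z.1 z.2 hz)
  have h2 := LinearMap.finrank_range_of_inj h1
  rw [LinearMap.range_domRestrict] at h2
  exact h2.ge

/-- The dimension of the span of the derivatives of a subchain by variables of its inner blocks is
at most the dimension for the whole chain. -/
theorem cancel (hM : Lay blk M) {ρ : ℕ} {d : ℕ → ℕ} {N : ℕ} (hd : IsChain M ρ d N) {k m : ℕ}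
    (hk : k < m) (hm : m ≤ N) {S : Set (Fin n)} (hS : S ⊆ lay blk (d (k + 1)) (d (m - 1))) :
    Module.finrank (QQ K n) (dsp M (d k) (d m) S) ≤
      Module.finrank (QQ K n) (dsp M (d 0) (d N) S) := by
  have h0k : d 0 ≤ d k := hd.mono (Nat.zero_le k) (by omega)
  have hkk : d k ≤ d (k + 1) := hd.mono (Nat.le_succ k) (by omega)
  have hmm : d (m - 1) ≤ d m := hd.mono (by omega) hm
  have hmN : d m ≤ d N := hd.mono hm le_rfl
  let A : Matrix (Fin w) (Fin w) (QQ K n) := mq (iprod M (d 0) (d k))
  let P : Matrix (Fin w) (Fin w) (QQ K n) := mq (iprod M (d k) (d (k + 1)))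
  let R : Matrix (Fin w) (Fin w) (QQ K n) := mq (iprod M (d (m - 1)) (d m))
  let B : Matrix (Fin w) (Fin w) (QQ K n) := mq (iprod M (d m) (d N))
  have hAP : (A * P).rank = P.rank := by
    have h1 : A * P = mq (iprod M (d 0) (d (k + 1))) := by
      rw [← iprod_mul M h0k hkk, mq_mul]
    rw [h1]
    have h2 := hd.rk_sub (k := 0) (m := k + 1) (by omega) (by omega)
    have h3 := hd.rk_sub (k := k) (m := k + 1) (by omega) (by omega)
    unfold rk at h2 h3
    rw [h2]
    exact h3.symm
  have hRB : (R * B).rank = R.rank := by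
    have h1 : R * B = mq (iprod M (d (m - 1)) (d N)) := by
      rw [← iprod_mul M hmm hmN, mq_mul]
    rw [h1]
    have h2 := hd.rk_sub (k := m - 1) (m := N) (by omega) le_rfl
    have h3 := hd.rk_sub (k := m - 1) (m := m) (by omega) hm
    unfold rk at h2 h3
    rw [h2]
    exact h3.symm
  let T : Matrix (Fin w) (Fin w) (QQ K n) →ₗ[QQ K n] Matrix (Fin w) (Fin w) (QQ K n) :=
    { toFun := fun Z => A * Z * B
      map_add' := fun X Y => by rw [Matrix.mul_add, Matrix.add_mul]
      map_smul' := fun t X => by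
        rw [Matrix.mul_smul, Matrix.smul_mul, RingHom.id_apply] }
  have hmap : (dsp M (d k) (d m) S).map T = dsp M (d 0) (d N) S := by
    unfold dsp
    rw [Submodule.map_span, Set.image_image]
    congr 1
    refine Set.image_congr fun v hv => ?_
    have h3 := hS hv
    change A * mq (dm v (iprod M (d k) (d m))) * B = mq (dm v (iprod M (d 0) (d N)))
    rw [dm_split hM h0k (hkk.trans h3.1) (lt_of_lt_of_le h3.2 hmm) hmN, mq_mul, mq_mul]
  have hinj : ∀ Z ∈ dsp M (d k) (d m) S, T Z = 0 → Z = 0 := by
    intro Z hZ hT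
    obtain ⟨W, hW⟩ := cwrCancel_factor hM hkk hmm hS hZ
    change Z = P * W * R at hW
    change A * Z * B = 0 at hT
    rw [hW] at hT ⊢
    have h1 : (A * P * W) * R * B = 0 := by
      rw [← hT]
      simp only [Matrix.mul_assoc]
    have h2 := inj_right hRB h1
    have h3 : A * (P * (W * R)) = 0 := by
      rw [← h2]
      simp only [Matrix.mul_assoc]
    have h4 := inj_left hAP h3
    rw [Matrix.mul_assoc]
    exact h4
  have hfin := cwrCancel_finrank T _ hinj
  rw [hmap] at hfin
  exact hfin

end Pool.Agent.CWR
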