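import Pool.Agent.CWR.RkR

/-!
# CWR: chains of `ρ`-blocks
-/

set_option autoImplicit false

namespace Pool.Agent.CWR

open MvPolynomial

variable {K : Type*} [Field K] {n w : ℕ}

/-- Consecutive intervals `[c l, c (l+1))`, `l < N`, of layers, whose products have rank exactly `ρ`
while the products without the last layer are empty or have rank greater than `ρ`, and such that the
whole product has rank `ρ`. -/
structure IsChain (M : ℕ → Matrix (Fin w) (Fin w) (MvPolynomial (Fin n) K)) (ρ : ℕ) (c : ℕ → ℕ)
    (N : ℕ) : Prop where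
  lt : ∀ l < N, c l < c (l + 1)
  rkb : ∀ l < N, rk (iprod M (c l) (c (l + 1))) = ρ
  min : ∀ l < N, c l + 1 = c (l + 1) ∨ ρ < rk (iprod M (c l) (c (l + 1) - 1))
  rkT : 0 < N → rk (iprod M (c 0) (c N)) = ρ

variable {M : ℕ → Matrix (Fin w) (Fin w) (MvPolynomial (Fin n) K)} {ρ : ℕ} {c : ℕ → ℕ} {N : ℕ}

theorem IsChain.mono (h : IsChain M ρ c N) {k m : ℕ} (hk : k ≤ m) (hm : m ≤ N) : c k ≤ c m := by
  induction m, hk using Nat.le_induction with
  | base => exact le_rfl
  | succ m hkm ih => exact (ih (by omega)).trans (h.lt m (by omega)).le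

theorem IsChain.strict (h : IsChain M ρ c N) {k m : ℕ} (hk : k < m) (hm : m ≤ N) : c k < c m := by
  exact lt_of_lt_of_le (h.lt k (by omega)) (h.mono (Nat.succ_le_of_lt hk) hm)

/- PLAN. `rk_iprod_anti` twice: the interval contains the block `k` and is contained in the whole. -/
theorem IsChain.rk_sub (h : IsChain M ρ c N) {k m : ℕ} (hk : k < m) (hm : m ≤ N) :
    rk (iprod M (c k) (c m)) = ρ := by
  apply le_antisymm
  · rw [← h.rkb k (by omega)]
    exact rk_iprod_anti M le_rfl (h.lt k (by omega)).le (h.mono (Nat.succ_le_of_lt hk) hm)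
  · rw [← h.rkT (by omega)]
    exact rk_iprod_anti M (h.mono (Nat.zero_le k) (by omega)) (h.mono hk.le hm) (h.mono hm le_rfl)

theorem IsChain.sub (h : IsChain M ρ c N) {k m : ℕ} (hk : k < m) (hm : m ≤ N) :
    IsChain M ρ (fun i => c (k + i)) (m - k) := by
  refine ⟨fun l hl => ?_, fun l hl => ?_, fun l hl => ?_, fun _ => ?_⟩
  · exact h.lt (k + l) (by omega)
  · exact h.rkb (k + l) (by omega)
  · exact h.min (k + l) (by omega)
  · have e : k + (m - k) = m := by omega
    show rk (iprod M (c (k + 0)) (c (k + (m - k)))) = ρ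
    rw [e, Nat.add_zero]
    exact h.rk_sub hk hm

/- PLAN. Strong induction on `b - a`. Let `e` be the least index `> a` with
`rk (iprod M a e) ≤ ρ` (it exists and is `≤ b`; `rk = ρ` there, by `rk_iprod_anti`). If `e = b` or
`rk (iprod M e b) ≠ ρ` (then it is `> ρ`) take one block; otherwise use the induction hypothesis for
`e, b` and put the block `[a, e)` in front (`c' 0 = a`, `c' (l + 1) = c l`). -/
theorem exists_chain (M : ℕ → Matrix (Fin w) (Fin w) (MvPolynomial (Fin n) K)) {ρ a b : ℕ}
    (hab : a < b) (h : rk (iprod M a b) = ρ) :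
    ∃ (c : ℕ → ℕ) (N : ℕ), IsChain M ρ c N ∧ 0 < N ∧ c 0 = a ∧ c N ≤ b ∧
      (c N = b ∨ ρ < rk (iprod M (c N) b)) := by
  induction hn : b - a using Nat.strong_induction_on generalizing a with
  | _ n ih =>
    classical
    have hP : ∃ e, a < e ∧ rk (iprod M a e) ≤ ρ := ⟨b, hab, h.le⟩
    obtain ⟨e, he1, he2, he3⟩ : ∃ e, (a < e ∧ rk (iprod M a e) ≤ ρ) ∧ e ≤ b ∧
        ∀ f < e, ¬ (a < f ∧ rk (iprod M a f) ≤ ρ) :=
      ⟨Nat.find hP, Nat.find_spec hP, Nat.find_min' hP ⟨hab, h.le⟩, fun f hf => Nat.find_min hP hf⟩
    have her : rk (iprod M a e) = ρ := by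
      apply le_antisymm he1.2
      rw [← h]
      exact rk_iprod_anti M le_rfl he1.1.le he2
    have hmin : a + 1 = e ∨ ρ < rk (iprod M a (e - 1)) := by
      by_cases hae : a + 1 = e
      · exact Or.inl hae
      · right
        have := he3 (e - 1) (by omega)
        by_contra hcon
        exact this ⟨by omega, not_lt.mp hcon⟩
    have hge : ρ ≤ rk (iprod M e b) := by
      rw [← h]
      exact rk_iprod_anti M he1.1.le he2 le_rfl
    by_cases hcase : e = b ∨ rk (iprod M e b) ≠ ρ
    · refine ⟨fun l => if l = 0 then a else e, 1, ⟨?_, ?_, ?_, ?_⟩, Nat.one_pos, by simp, by simpa using he2,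
        ?_⟩
      · intro l hl
        obtain rfl : l = 0 := by omega
        simpa using he1.1
      · intro l hl
        obtain rfl : l = 0 := by omega
        simpa using her
      · intro l hl
        obtain rfl : l = 0 := by omega
        simpa using hmin
      · intro _
        simpa using her
      · rcases hcase with hc | hc
        · left
          simpa using hc
        · right
          simpa using lt_of_le_of_ne hge (Ne.symm hc)
    · push Not at hcase
      obtain ⟨c, N, hc, hN, hc0, hcN, hor⟩ := ih (b - e) (by have := he1.1; omega)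
        (lt_of_le_of_ne he2 hcase.1) hcase.2 rfl
      refine ⟨fun l => if l = 0 then a else c (l - 1), N + 1, ⟨?_, ?_, ?_, ?_⟩, Nat.succ_pos N, by simp,
        by simpa using hcN, by simpa using hor⟩
      · intro l hl
        rcases l with _ | l
        · simpa [hc0] using he1.1
        · simpa using hc.lt l (by omega)
      · intro l hl
        rcases l with _ | l
        · simpa [hc0] using her
        · simpa using hc.rkb l (by omega)
      · intro l hl
        rcases l with _ | l
        · simpa [hc0] using hmin
        · simpa using hc.min l (by omega)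
      · intro _
        have h0N : e ≤ c N := by
          rw [← hc0]
          exact hc.mono (Nat.zero_le N) le_rfl
        have : rk (iprod M a (c N)) = ρ := by
          apply le_antisymm
          · rw [← her]
            exact rk_iprod_anti M le_rfl he1.1.le h0N
          · rw [← h]
            exact rk_iprod_anti M le_rfl (he1.1.le.trans h0N) hcN
        simpa using this

end Pool.Agent.CWR
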