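import Mathlib

/-!
Project CWR (MP_e2be99_lc): formulas of bounded depth with gates of bounded occurrence and gates
which are read-once oblivious algebraic branching programs of bounded width, in unknown variable
order.  Definitions used in the statement.
-/

set_option autoImplicit false

namespace Pool.Agent.CWR

open MvPolynomial

variable {K : Type*} [Field K] {n w : ℕ}

/-- the product `M_a M_(a+1) ... M_(b-1)` -/
noncomputable def iprod (M : ℕ → Matrix (Fin w) (Fin w) (MvPolynomial (Fin n) K)) (a b : ℕ) :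
    Matrix (Fin w) (Fin w) (MvPolynomial (Fin n) K) :=
  ((List.range' a (b - a)).map M).prod

/-- `F = u^T M_0 M_1 ... M_(L-1) v`, where `u, v` are vectors of constants and `M_l` is a `w × w`
matrix of polynomials in the variables of the layer `l` only: `F` is computed by a read-once
oblivious algebraic branching program of width `w`, in the order given by the layers. -/
def ROABP (blk : Fin n → ℕ) (w : ℕ) (F : MvPolynomial (Fin n) K) : Prop :=
  ∃ (L : ℕ) (M : ℕ → Matrix (Fin w) (Fin w) (MvPolynomial (Fin n) K)) (u v : Fin w → K),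
    (∀ l < L, ∀ i j, ∀ x ∈ (M l i j).vars, blk x = l) ∧
    F = ∑ i, ∑ j, C (u i) * iprod M 0 L i j * C (v j)

/-- `Circ κ w β 𝓛 Δ f`: the polynomial `f` is computed by a formula of depth `Δ` over leaves which
satisfy `𝓛`. If `β Δ = none`, the gates which take inputs of depth `Δ` are
* sums of any number of polynomials such that every variable occurs in at most `κ` of them;
* products of powers, with arbitrary exponents, of any number of polynomials such that every
  variable occurs in at most `κ` of them;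
* arbitrary polynomials, of any degree, in at most `κ` polynomials.
If `β Δ = some blk`, they are read-once oblivious algebraic branching programs
`u^T M_0 M_1 ... M_(L-1) v` of any length `L` and of width at most `w`, where the inputs which are
entries of `M_l` depend only on the variables `x` of the layer `blk x = l`. -/
inductive Circ {K : Type*} [Field K] {n : ℕ} (κ w : ℕ) (β : ℕ → Option (Fin n → ℕ))
    (𝓛 : MvPolynomial (Fin n) K → Prop) : ℕ → MvPolynomial (Fin n) K → Prop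
  | leaf {f : MvPolynomial (Fin n) K} (hf : 𝓛 f) : Circ κ w β 𝓛 0 f
  | sum {Δ m : ℕ} (hβ : β Δ = none) (b : Fin m → MvPolynomial (Fin n) K)
      (hb : ∀ l, Circ κ w β 𝓛 Δ (b l))
      (hκ : ∀ v, (Finset.univ.filter fun l => v ∈ (b l).vars).card ≤ κ) :
      Circ κ w β 𝓛 (Δ + 1) (∑ l, b l)
  | prod {Δ m : ℕ} (hβ : β Δ = none) (b : Fin m → MvPolynomial (Fin n) K)
      (hb : ∀ l, Circ κ w β 𝓛 Δ (b l))
      (hκ : ∀ v, (Finset.univ.filter fun l => v ∈ (b l).vars).card ≤ κ) (e : Fin m → ℕ) :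
      Circ κ w β 𝓛 (Δ + 1) (∏ l, b l ^ e l)
  | comp {Δ m : ℕ} (hβ : β Δ = none) (b : Fin m → MvPolynomial (Fin n) K)
      (hb : ∀ l, Circ κ w β 𝓛 Δ (b l)) (hm : m ≤ κ) (p : MvPolynomial (Fin m) K) :
      Circ κ w β 𝓛 (Δ + 1) (MvPolynomial.aeval b p)
  | abp {Δ L w' : ℕ} {blk : Fin n → ℕ} (hβ : β Δ = some blk) (hw : w' ≤ w)
      (M : ℕ → Matrix (Fin w') (Fin w') (MvPolynomial (Fin n) K))
      (hM : ∀ l < L, ∀ i j, Circ κ w β 𝓛 Δ (M l i j))
      (hv : ∀ l < L, ∀ i j, ∀ x ∈ (M l i j).vars, blk x = l) (u v : Fin w' → K) :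
      Circ κ w β 𝓛 (Δ + 1) (∑ i, ∑ j, C (u i) * iprod M 0 L i j * C (v j))

/-- `s_0 = 0`, `s_(j+1) = 3 s_j + 2 q + w²` -/
def sR (w q : ℕ) : ℕ → ℕ
  | 0 => 0
  | j + 1 => 3 * sR w q j + 2 * q + w ^ 2

/-- `C = (w² + 2) (2 (s + q) + w²) + 2 w² (s + q)` -/
def costR (w q s : ℕ) : ℕ := (w ^ 2 + 2) * (2 * (s + q) + w ^ 2) + 2 * w ^ 2 * (s + q)

/-- `c_0 = 0`, `c_(j+1) = c_j + 2 (s_j + q) + w² C_j` -/
def lamR (w q : ℕ) : ℕ → ℕ
  | 0 => 0
  | j + 1 => lamR w q j + 2 * (sR w q j + q) + w ^ 2 * costR w q (sR w q j)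

/-- the number of seeds for products of `w × w` matrices -/
def EE (w q : ℕ) : ℕ := lamR w q w + sR w q w

/-- `W = M! (w+1)^M` -/
def wd (w M : ℕ) : ℕ := M.factorial * (w + 1) ^ M

/-- `(W² + 1) (M w)²` -/
def rowsA (w M : ℕ) : ℕ := (wd w M ^ 2 + 1) * (M * w) ^ 2

/-- `M (M + m + 1)^(m+2) κ + 1` -/
def rowsG (κ M m : ℕ) : ℕ := M * ((M + m + 1) ^ (m + 1) * ((M + m + 1) * κ)) + 1

/-- `m_0 = k`, `m_(j+1)` = the sum of the numbers above for `M = m_j`, `m = 2 j` -/
def sz (κ k w : ℕ) : ℕ → ℕ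
  | 0 => k
  | j + 1 => rowsG κ (sz κ k w j) (2 * j) + rowsA w (sz κ k w j)

/-- the number of seeds for one level -/
def cost (κ k w j : ℕ) : ℕ :=
  rowsG κ (sz κ k w j) (2 * j) + EE (wd w (sz κ k w j)) (2 * (sz κ k w j * w) ^ 2)

/-- the total number of seeds -/
def Etot (κ k w Δ : ℕ) : ℕ := ∑ j ∈ Finset.range Δ, cost κ k w j + k

end Pool.Agent.CWR
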