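import Pool.Agent.CWR.Gr
import Pool.Agent.ORB.Gen

/-!
# CWR: coverings
-/

set_option autoImplicit false

namespace Pool.Agent.CWR

open MvPolynomial Pool.Agent.ORB

variable {K : Type*} [Field K] {n w : ℕ} {σ : Type*}

/-- The set `𝒯` of polynomials is covered at level `c` by at most `s` polynomials in the variables
`V`: they have a Jacobian minor which the generator with `c` seeds does not kill, and the gradients
of the members of `𝒯` are combinations of their gradients. -/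
def Cov (p : Fin n → Polynomial K) (γ : Fin n → MvPolynomial σ K) (c s : ℕ)
    (𝒯 : Set (MvPolynomial (Fin n) K)) (V : Set (Fin n)) : Prop :=
  ∃ t ≤ s, ∃ (Ψ : Fin t → MvPolynomial (Fin n) K) (I : Fin t → Fin n), (∀ j, I j ∈ V) ∧
    (∀ j, ∀ v ∉ V, pderiv v (Ψ j) = 0) ∧
    PhiP p γ c (Matrix.of fun i j => pderiv (I j) (Ψ i)).det ≠ 0 ∧
    ∀ τ ∈ 𝒯, gr τ ∈ Submodule.span (QQ K n) (Set.range fun j => gr (Ψ j))

variable {p : Fin n → Polynomial K} {γ : Fin n → MvPolynomial σ K}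

/- PLAN. The same data; `PhiP_mono`. -/
theorem Cov.mono [Infinite K] {c c' s s' : ℕ} {𝒯 𝒯' : Set (MvPolynomial (Fin n) K)}
    {V V' : Set (Fin n)} (h : Cov p γ c s 𝒯 V) (hc : c ≤ c') (hs : s ≤ s') (hT : 𝒯' ⊆ 𝒯)
    (hV : V ⊆ V') : Cov p γ c' s' 𝒯' V' := by
  obtain ⟨t, ht, Ψ, I, h1, h2, h3, h4⟩ := h
  refine ⟨t, ht.trans hs, Ψ, I, fun j => hV (h1 j), fun j v hv => h2 j v fun h => hv (hV h), ?_,
    fun τ hτ => h4 τ (hT hτ)⟩
  exact PhiP_mono p γ hc h3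

/- PLAN. `Submodule.span_le`. -/
theorem Cov.of_span {c s : ℕ} {𝒯 𝒯' : Set (MvPolynomial (Fin n) K)} {V : Set (Fin n)}
    (h : Cov p γ c s 𝒯 V) (h' : ∀ τ ∈ 𝒯', gr τ ∈ Submodule.span (QQ K n) (gr '' 𝒯)) :
    Cov p γ c s 𝒯' V := by
  obtain ⟨t, ht, Ψ, I, h1, h2, h3, h4⟩ := h
  refine ⟨t, ht, Ψ, I, h1, h2, h3, fun τ hτ => ?_⟩
  refine (Submodule.span_le.2 ?_) (h' τ hτ)
  rintro _ ⟨x, hx, rfl⟩
  exact h4 x hx

/- PLAN. `Cov.of_span` and `gr_mem_of_adjoin`. -/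
theorem Cov.of_adjoin {c s : ℕ} {𝒯 𝒯' : Set (MvPolynomial (Fin n) K)} {V : Set (Fin n)}
    (h : Cov p γ c s 𝒯 V) (h' : ∀ τ ∈ 𝒯', τ ∈ Algebra.adjoin K 𝒯) : Cov p γ c s 𝒯' V := by
  refine h.of_span fun τ hτ => gr_mem_of_adjoin _ 𝒯 (fun x hx => ?_) (h' τ hτ)
  exact Submodule.subset_span ⟨x, hx, rfl⟩

/- PLAN. `t = 0`; the determinant of the empty matrix is `1`. -/
theorem Cov.empty {c s : ℕ} {𝒯 : Set (MvPolynomial (Fin n) K)} {V : Set (Fin n)}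
    (h : ∀ τ ∈ 𝒯, gr τ = 0) : Cov p γ c s 𝒯 V := by
  refine ⟨0, Nat.zero_le _, Fin.elim0, Fin.elim0, fun j => j.elim0, fun j => j.elim0, ?_,
    fun τ hτ => ?_⟩
  · rw [Matrix.det_isEmpty, map_one]
    exact one_ne_zero
  · rw [h τ hτ]
    exact Submodule.zero_mem _

end Pool.Agent.CWR
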