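import Pool.Agent.CWR.Cov

/-!
# CWR: unions of coverings
-/

set_option autoImplicit false

namespace Pool.Agent.CWR

open MvPolynomial Pool.Agent.ORB

variable {K : Type*} [Field K] {n w : ℕ} {σ : Type*} {p : Fin n → Polynomial K}
  {γ : Fin n → MvPolynomial σ K}

/- PLAN. Triangular union. `Fin.append` of the two families (`Fin (t₁ + t)`); the Jacobian matrix is
block triangular since the members of the first family do not depend on `I' j ∉ V`; its determinant
is the product (`Matrix.det_fromBlocks_zero₁₂` or `₂₁` after reindexing with `finSumFinEquiv`,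
`Matrix.det_submatrix_equiv_self`/`Matrix.det_reindex_self`). -/
theorem Cov.tri {c s t : ℕ} {𝒯 𝒯' : Set (MvPolynomial (Fin n) K)} {V V' : Set (Fin n)}
    (h : Cov p γ c s 𝒯 V) (hV : ∀ v ∈ V', v ∉ V) (R : Fin t → MvPolynomial (Fin n) K)
    (I' : Fin t → Fin n) (hI : ∀ j, I' j ∈ V')
    (hR : ∀ j, ∀ v, v ∉ V → v ∉ V' → pderiv v (R j) = 0)
    (hdet : PhiP p γ c (Matrix.of fun i j => pderiv (I' j) (R i)).det ≠ 0)
    (hT : ∀ τ ∈ 𝒯', gr τ ∈ Submodule.span (QQ K n) (gr '' (𝒯 ∪ Set.range R))) :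
    Cov p γ c (s + t) 𝒯' (V ∪ V') := by
  obtain ⟨t₁, ht₁, Ψ, I, hIV, hΨ, hd, hs⟩ := h
  refine ⟨t₁ + t, by omega, Fin.append Ψ R, Fin.append I I', ?_, ?_, ?_, ?_⟩
  · intro j
    refine Fin.addCases (fun i => ?_) (fun i => ?_) j
    · rw [Fin.append_left]
      exact Or.inl (hIV i)
    · rw [Fin.append_right]
      exact Or.inr (hI i)
  · intro j v hv
    have h1 : v ∉ V := fun h => hv (Or.inl h)
    have h2 : v ∉ V' := fun h => hv (Or.inr h)
    refine Fin.addCases (fun i => ?_) (fun i => ?_) j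
    · rw [Fin.append_left]
      exact hΨ i v h1
    · rw [Fin.append_right]
      exact hR i v h1 h2
  · have e : (Matrix.of fun i j => pderiv (Fin.append I I' j) (Fin.append Ψ R i)).submatrix
        finSumFinEquiv finSumFinEquiv =
        Matrix.fromBlocks (Matrix.of fun i j => pderiv (I j) (Ψ i)) 0
          (Matrix.of fun i j => pderiv (I j) (R i)) (Matrix.of fun i j => pderiv (I' j) (R i)) := by
      ext i j : 1
      rcases i with i | i <;> rcases j with j | j
      · simp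
      · simp only [Matrix.submatrix_apply, Matrix.of_apply, finSumFinEquiv_apply_left,
          finSumFinEquiv_apply_right, Fin.append_left, Fin.append_right,
          Matrix.fromBlocks_apply₁₂, Matrix.zero_apply]
        exact hΨ i _ (hV _ (hI j))
      · simp
      · simp
    rw [← Matrix.det_submatrix_equiv_self finSumFinEquiv, e, Matrix.det_fromBlocks_zero₁₂, map_mul]
    exact mul_ne_zero hd hdet
  · intro τ hτ
    refine Submodule.span_le.2 ?_ (hT τ hτ)
    rintro _ ⟨x, hx | ⟨i, rfl⟩, rfl⟩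
    · refine Submodule.span_mono ?_ (hs x hx)
      rintro _ ⟨j, rfl⟩
      exact ⟨Fin.castAdd t j, by simp only [Fin.append_left]⟩
    · exact Submodule.subset_span ⟨Fin.natAdd t₁ i, by simp only [Fin.append_right]⟩

/- PLAN. From `Cov.tri` (the second family has its own data `Ψ`, `I`, with vanishing derivatives
outside `V'`). -/
theorem Cov.union {c s s' : ℕ} {𝒯 𝒯' : Set (MvPolynomial (Fin n) K)} {V V' : Set (Fin n)}
    (h : Cov p γ c s 𝒯 V) (h' : Cov p γ c s' 𝒯' V') (hV : ∀ v ∈ V', v ∉ V) :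
    Cov p γ c (s + s') (𝒯 ∪ 𝒯') (V ∪ V') := by
  obtain ⟨t, ht, Ψ, I, hI, hΨ, hd, hs⟩ := h'
  have h1 : Cov p γ c (s + t) (𝒯 ∪ 𝒯') (V ∪ V') := by
    refine Cov.tri h hV Ψ I hI (fun j v _ hv => hΨ j v hv) hd ?_
    rintro τ (hτ | hτ)
    · exact Submodule.subset_span ⟨τ, Or.inl hτ, rfl⟩
    · refine Submodule.span_mono ?_ (hs τ hτ)
      rintro _ ⟨j, rfl⟩
      exact ⟨Ψ j, Or.inr ⟨j, rfl⟩, rfl⟩
  obtain ⟨t', ht', rest⟩ := h1
  exact ⟨t', by omega, rest⟩

end Pool.Agent.CWR
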