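import Pool.Agent.CWR.Core
import Pool.Agent.ORB.Defs

/-!
Project CWR (MP_e2be99_lc): orbits of the formulas of `Pool.Agent.CWR.Core` under affine maps.
-/

set_option autoImplicit false

namespace Pool.Agent.CWR

open MvPolynomial Pool.Agent.ORB

/-- `g` is obtained by an invertible affine substitution from a polynomial which is algebraic over
the field generated by formulas `T_i` of depth `Δ` over mixed leaves, at most `k` of which are
algebraically independent. -/
def OrbitCirc {K : Type*} [Field K] {n : ℕ} (κ k w s Δ : ℕ) (g : MvPolynomial (Fin n) K) : Prop :=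
  ∃ (A : Matrix (Fin n) (Fin n) K) (b : Fin n → K) (B : Finset (Fin n))
    (β : ℕ → Option (Fin n → ℕ)) (N : ℕ)
    (T : Fin N → MvPolynomial (Fin n) K) (h : MvPolynomial (Fin n) K),
    A.det ≠ 0 ∧ (∀ i, Circ κ w β (MixedLeaf B s) Δ (T i)) ∧
    (∀ c : Finset (Fin N), AlgebraicIndepOn K T (c : Set (Fin N)) → c.card ≤ k) ∧
    IsAlgebraic (Algebra.adjoin K (Set.range T)) h ∧ g = aff A b h

/-- `n (m! s^m + 2)²`, `m = m_Δ` -/
def ordT (n κ k w s Δ : ℕ) : ℕ :=
  n * ((sz κ k w Δ).factorial * s ^ sz κ k w Δ + 2) ^ 2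

end Pool.Agent.CWR
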