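import Pool.Agent.CWR.IP

/-!
# CWR: gradients over the field of rational functions
-/

set_option autoImplicit false

namespace Pool.Agent.CWR

open MvPolynomial

/-- the field of rational functions -/
abbrev QQ (K : Type*) [Field K] (n : ℕ) : Type _ := FractionRing (MvPolynomial (Fin n) K)

variable {K : Type*} [Field K] {n w : ℕ}

/-- the gradient -/
noncomputable def gr (F : MvPolynomial (Fin n) K) : Fin n → QQ K n :=
  fun v => algebraMap (MvPolynomial (Fin n) K) (QQ K n) (pderiv v F)

/-- the set of the entries -/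
def ents (X : Matrix (Fin w) (Fin w) (MvPolynomial (Fin n) K)) : Set (MvPolynomial (Fin n) K) :=
  {x | ∃ i j, x = X i j}

/-- the set of the derivatives of the entries by the variables in `I` -/
def dents (I : Finset (Fin n)) (X : Matrix (Fin w) (Fin w) (MvPolynomial (Fin n) K)) :
    Set (MvPolynomial (Fin n) K) :=
  {x | ∃ v ∈ I, ∃ i j, x = pderiv v (X i j)}

/- PLAN. The polynomials whose gradient is in a subspace form a subalgebra (Leibniz rule). Use
`Algebra.adjoin_induction`. -/
theorem gr_mem_of_adjoin (D : Submodule (QQ K n) (Fin n → QQ K n)) (S : Set (MvPolynomial (Fin n) K))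
    (hS : ∀ x ∈ S, gr x ∈ D) {F : MvPolynomial (Fin n) K} (hF : F ∈ Algebra.adjoin K S) :
    gr F ∈ D := by
  induction hF using Algebra.adjoin_induction with
  | mem x hx => exact hS x hx
  | algebraMap r =>
    have h1 : gr (algebraMap K (MvPolynomial (Fin n) K) r) = 0 := by
      funext v
      show algebraMap (MvPolynomial (Fin n) K) (QQ K n) (pderiv v (C r)) = 0
      rw [pderiv_C, map_zero]
    rw [h1]
    exact D.zero_mem
  | add x y _ _ hx hy =>
    have h1 : gr (x + y) = gr x + gr y := by
      funext v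
      show algebraMap (MvPolynomial (Fin n) K) (QQ K n) (pderiv v (x + y)) = _
      rw [map_add, map_add]
      rfl
    rw [h1]
    exact D.add_mem hx hy
  | mul x y _ _ hx hy =>
    have h1 : gr (x * y) = algebraMap (MvPolynomial (Fin n) K) (QQ K n) y • gr x +
        algebraMap (MvPolynomial (Fin n) K) (QQ K n) x • gr y := by
      funext v
      show algebraMap (MvPolynomial (Fin n) K) (QQ K n) (pderiv v (x * y)) =
        algebraMap (MvPolynomial (Fin n) K) (QQ K n) y *
          algebraMap (MvPolynomial (Fin n) K) (QQ K n) (pderiv v x) +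
        algebraMap (MvPolynomial (Fin n) K) (QQ K n) x *
          algebraMap (MvPolynomial (Fin n) K) (QQ K n) (pderiv v y)
      rw [pderiv_mul, map_add, map_mul, map_mul]
      ring
    rw [h1]
    exact D.add_mem (D.smul_mem _ hx) (D.smul_mem _ hy)

/- PLAN. Entries of products are in the subalgebra (`Subalgebra.sum_mem`, `mul_mem`). -/
theorem ents_mul_mem {S : Subalgebra K (MvPolynomial (Fin n) K)}
    {X Y : Matrix (Fin w) (Fin w) (MvPolynomial (Fin n) K)} (hX : ∀ i j, X i j ∈ S)
    (hY : ∀ i j, Y i j ∈ S) : ∀ i j, (X * Y) i j ∈ S := by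
  intro i j
  rw [Matrix.mul_apply]
  exact S.sum_mem fun k _ => S.mul_mem (hX i k) (hY k j)

/- PLAN. `Matrix.det_apply`, `Subalgebra.sum_mem`, `prod_mem`. -/
theorem det_mem {r : ℕ} {S : Subalgebra K (MvPolynomial (Fin n) K)}
    {X : Matrix (Fin r) (Fin r) (MvPolynomial (Fin n) K)} (hX : ∀ i j, X i j ∈ S) : X.det ∈ S := by
  rw [Matrix.det_apply]
  refine S.sum_mem fun σ _ => ?_
  have h1 : ∏ i, X (σ i) i ∈ S := S.prod_mem fun i _ => hX _ _
  rcases Int.units_eq_one_or (Equiv.Perm.sign σ) with h | h
  · rw [h, one_smul]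
    exact h1
  · rw [h, Units.neg_smul, one_smul]
    exact S.neg_mem h1

end Pool.Agent.CWR
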