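import Pool.Agent.CWR.Defs

/-!
# CWR: interval products and their derivatives
-/

set_option autoImplicit false

namespace Pool.Agent.CWR

open MvPolynomial

variable {K : Type*} [Field K] {n w : ℕ}

/-- derivative of a matrix of polynomials -/
noncomputable def dm (v : Fin n) (X : Matrix (Fin w) (Fin w) (MvPolynomial (Fin n) K)) :
    Matrix (Fin w) (Fin w) (MvPolynomial (Fin n) K) := X.map (pderiv v)

/-- `M_l` does not depend on the variables outside the layer `l` -/
def Lay (blk : Fin n → ℕ) (M : ℕ → Matrix (Fin w) (Fin w) (MvPolynomial (Fin n) K)) : Prop :=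
  ∀ l v, blk v ≠ l → dm v (M l) = 0

variable (M : ℕ → Matrix (Fin w) (Fin w) (MvPolynomial (Fin n) K))

theorem iprod_self (a : ℕ) : iprod M a a = 1 := by
  simp [iprod]

theorem iprod_succ (a : ℕ) : iprod M a (a + 1) = M a := by
  simp [iprod]

theorem iprod_mul {a b c : ℕ} (h1 : a ≤ b) (h2 : b ≤ c) : iprod M a b * iprod M b c = iprod M a c := by
  unfold iprod
  rw [← List.prod_append, ← List.map_append]
  have h3 : List.range' a (b - a) ++ List.range' b (c - b) = List.range' a (c - a) := by
    have h4 := List.range'_append_1 (s := a) (m := b - a) (n := c - b)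
    rw [show a + (b - a) = b by omega, show b - a + (c - b) = c - a by omega] at h4
    exact h4
  rw [h3]

theorem dm_mul (v : Fin n) (X Y : Matrix (Fin w) (Fin w) (MvPolynomial (Fin n) K)) :
    dm v (X * Y) = dm v X * Y + X * dm v Y := by
  ext1 i j
  rw [Matrix.add_apply, Matrix.mul_apply, Matrix.mul_apply]
  simp only [dm, Matrix.map_apply, Matrix.mul_apply, map_sum, Derivation.leibniz, smul_eq_mul]
  rw [← Finset.sum_add_distrib]
  refine Finset.sum_congr rfl fun k _ => ?_
  ring

theorem dm_one (v : Fin n) : dm v (1 : Matrix (Fin w) (Fin w) (MvPolynomial (Fin n) K)) = 0 := by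
  ext1 i j
  rw [dm, Matrix.map_apply, Matrix.zero_apply, Matrix.one_apply]
  split_ifs
  · exact Derivation.map_one_eq_zero _
  · exact map_zero _

/-- Induction on `b` from `a`. -/
theorem dm_iprod_eq_zero {M : ℕ → Matrix (Fin w) (Fin w) (MvPolynomial (Fin n) K)} {blk : Fin n → ℕ}
    (hM : Lay blk M) {a b : ℕ} {v : Fin n} (hv : blk v < a ∨ b ≤ blk v) : dm v (iprod M a b) = 0 := by
  rcases le_total a b with hab | hab
  · induction b, hab using Nat.le_induction with
    | base => rw [iprod_self, dm_one]
    | succ b hab ih =>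
      rw [← iprod_mul M hab (Nat.le_succ b), iprod_succ, dm_mul, ih (by omega),
        hM b v (by omega), Matrix.zero_mul, Matrix.mul_zero, add_zero]
  · have h1 : iprod M a b = 1 := by
      unfold iprod
      rw [show b - a = 0 by omega]
      simp
    rw [h1, dm_one]

/-- `iprod M a b = iprod M a c * iprod M c d * iprod M d b`, and only the middle factor depends on
the variable `v`. -/
theorem dm_split {M : ℕ → Matrix (Fin w) (Fin w) (MvPolynomial (Fin n) K)} {blk : Fin n → ℕ}
    (hM : Lay blk M) {a b c d : ℕ} {v : Fin n} (h1 : a ≤ c) (h2 : c ≤ blk v) (h3 : blk v < d)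
    (h4 : d ≤ b) : dm v (iprod M a b) = iprod M a c * dm v (iprod M c d) * iprod M d b := by
  have h5 : iprod M a b = iprod M a c * iprod M c d * iprod M d b := by
    rw [iprod_mul M h1 (by omega), iprod_mul M (by omega) h4]
  rw [h5, dm_mul, dm_mul, dm_iprod_eq_zero hM (Or.inr h2), dm_iprod_eq_zero hM (Or.inl h3),
    Matrix.zero_mul, zero_add, Matrix.mul_zero, add_zero]

end Pool.Agent.CWR
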