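import Pool.Agent.CWR.CircH
import Pool.Agent.ORB.Base
import Pool.Agent.ORB.GridB
import Pool.Agent.ORB.GridC

/-!
# CWR: main theorem
-/

set_option autoImplicit false

namespace Pool.Agent.CWR

open MvPolynomial Pool.Agent.ORB

variable {K : Type*} [Field K] [CharZero K] {n : ℕ}

theorem ordT_ge (n κ k w s Δ : ℕ) :
    n * ((sz κ k w Δ).factorial * s ^ sz κ k w Δ) ^ 2 ≤ ordT n κ k w s Δ ∧
      n * 2 ^ 2 ≤ ordT n κ k w s Δ := by
  unfold ordT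
  exact ⟨Nat.mul_le_mul_left _ (Nat.pow_le_pow_left (Nat.le_add_right _ _) _),
    Nat.mul_le_mul_left _ (Nat.pow_le_pow_left (Nat.le_add_left _ _) _)⟩

/-- the generator hits the class -/
theorem class_hit (κ k w s Δ : ℕ) (g : MvPolynomial (Fin n) K) (hg : OrbitCirc κ k w s Δ g)
    (hg0 : g ≠ 0) : aeval (xpar K n (ordT n κ k w s Δ) (Etot κ k w Δ)) g ≠ 0 := by
  obtain ⟨A, b, B, β, N, T, h, hA, hT, htr, halg, rfl⟩ := hg
  rw [aeval_xpar_aff]
  obtain ⟨h1, h2⟩ := ordT_ge n κ k w s Δ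
  have hh0 : h ≠ 0 := by
    rintro rfl
    exact hg0 (map_zero _)
  exact circ_hit (𝓛 := {g | MixedLeaf B s g}) (linearIndependent_gpA A hA _ h2)
    (leaf_H1 A hA b s _ _ (2 * Δ) h1 h2 B) T hT htr h halg hh0

theorem main_hit (κ k w s Δ D m : ℕ) (g : Fin m → MvPolynomial (Fin n) K)
    (hg : ∀ j, OrbitCirc κ k w s Δ (g j)) (hg0 : ∀ j, g j ≠ 0) (f : MvPolynomial (Fin n) K)
    (hf : f ∣ ∏ j, g j) (hD : f.totalDegree ≤ D) :
    ∃ x ∈ hittingSet n (ordT n κ k w s Δ) (Etot κ k w Δ) (D * (ordT n κ k w s Δ + 1)),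
      eval (fun i => (x i : K)) f ≠ 0 := by
  refine exists_mem_hittingSet _ _ D f hD ?_
  intro h0
  obtain ⟨q, hq⟩ := hf
  have h1 := congrArg (aeval (xpar K n (ordT n κ k w s Δ) (Etot κ k w Δ))) hq
  rw [map_mul, h0, zero_mul, map_prod, Finset.prod_eq_zero_iff] at h1
  obtain ⟨j, -, hj⟩ := h1
  exact class_hit κ k w s Δ (g j) (hg j) (hg0 j) hj

end Pool.Agent.CWR
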