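import Pool.Agent.CWR.HH

/-!
# CWR: covering of a chain with marked variables
-/

set_option autoImplicit false

namespace Pool.Agent.CWR

open MvPolynomial Pool.Agent.ORB

variable {K : Type*} [Field K] [CharZero K] {n w : ℕ} {σ : Type*} {p : Fin n → Polynomial K}
  {γ : Fin n → MvPolynomial σ K} {blk : Fin n → ℕ}
  {M : ℕ → Matrix (Fin w) (Fin w) (MvPolynomial (Fin n) K)}

omit [CharZero K] in
theorem pieces_glue (hM : Lay blk M) {C s₁ s₂ a b c : ℕ} (hab : a ≤ b) (hbc : b ≤ c)
    (I J : Finset (Fin n)) (hI : ∀ v ∈ I, blk v < b) (hJ : ∀ v ∈ J, b ≤ blk v)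
    (h₁ : Cov p γ C s₁ (ents (iprod M a b) ∪ dents I (iprod M a b)) (lay blk a b))
    (h₂ : Cov p γ C s₂ (ents (iprod M b c) ∪ dents J (iprod M b c)) (lay blk b c))
    (I' : Finset (Fin n)) (hI' : ∀ v ∈ I', v ∈ I ∨ v ∈ J) :
    Cov p γ C (s₁ + s₂) (ents (iprod M a c) ∪ dents I' (iprod M a c)) (lay blk a c) := by
  have hV : ∀ v ∈ lay blk b c, v ∉ lay blk a b := fun v h h' =>
    absurd h.1 (not_le.2 h'.2)
  have hU : lay blk a b ∪ lay blk b c = lay blk a c := by
    ext v
    constructor
    · rintro (h | h)
      · exact ⟨h.1, h.2.trans_le hbc⟩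
      · exact ⟨hab.trans h.1, h.2⟩
    · intro h
      rcases lt_or_ge (blk v) b with h' | h'
      · exact Or.inl ⟨h.1, h'⟩
      · exact Or.inr ⟨h', h.2⟩
  have h₃ := h₁.union h₂ hV
  rw [hU] at h₃
  refine h₃.of_adjoin ?_
  set S := Algebra.adjoin K ((ents (iprod M a b) ∪ dents I (iprod M a b)) ∪
    (ents (iprod M b c) ∪ dents J (iprod M b c))) with hS
  have hab' : ∀ i j, iprod M a b i j ∈ S := fun i j =>
    Algebra.subset_adjoin (Or.inl (Or.inl ⟨i, j, rfl⟩))
  have hbc' : ∀ i j, iprod M b c i j ∈ S := fun i j =>
    Algebra.subset_adjoin (Or.inr (Or.inl ⟨i, j, rfl⟩))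
  have hmul := iprod_mul M hab hbc
  rintro τ (⟨i, j, rfl⟩ | ⟨v, hv, i, j, rfl⟩)
  · rw [← hmul]
    exact ents_mul_mem hab' hbc' i j
  · have h4 : pderiv v (iprod M a c i j) = dm v (iprod M a c) i j := rfl
    rw [h4, ← hmul, dm_mul, Matrix.add_apply]
    rcases hI' v hv with h | h
    · rw [dm_iprod_eq_zero hM (Or.inl (hI v h)) (a := b) (b := c), Matrix.mul_zero,
        Matrix.zero_apply, add_zero]
      refine ents_mul_mem (fun i j => ?_) hbc' i j
      exact Algebra.subset_adjoin (Or.inl (Or.inr ⟨v, h, i, j, rfl⟩))
    · rw [dm_iprod_eq_zero hM (Or.inr (hJ v h)) (a := a) (b := b), Matrix.zero_mul,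
        Matrix.zero_apply, zero_add]
      refine ents_mul_mem hab' (fun i j => ?_) i j
      exact Algebra.subset_adjoin (Or.inr (Or.inr ⟨v, h, i, j, rfl⟩))

/- PLAN. Strong induction on `t`, with the sharper bound `k * s' + 2 * k * e` (instead of
`(k + 1) * s' + 2 * k * e`) if `t = 0` or the block `t - 1` contains a variable of `I`; here
`k = card {v ∈ I | blk v < d t}`.  Last block marked: `T(0,t) = T(0,t-1) * T(t-1,t)`, induction
hypothesis for `t - 1`, `hloc` for the block `t - 1` with its `j ≥ 1` variables of `I`
(`(j + 1) * e ≤ 2 * j * e`), `Cov.union`. Last block unmarked: let `t₀ < t` be the least index with all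
blocks `t₀, ..., t - 1` unmarked (`t₀ = 0` or the block `t₀ - 1` is marked): `T(0,t) = T(0,t₀) *
T(t₀,t)`, induction hypothesis (sharp form) for `t₀`, `hrun` for `[t₀, t)`, `Cov.union`; the derivatives
of `T(t₀,t)` by the variables of `I` with `blk v < d t₀` are zero.  The entries of the product and
its derivatives are in the `adjoin` (`Cov.of_adjoin`, `ents_mul_mem`, `dm_mul`, `dm_iprod_eq_zero`).
All variables of `I` have `d 0 ≤ blk v`. -/
theorem pieces (hM : Lay blk M) {ρ C s' e : ℕ} {d : ℕ → ℕ} {N : ℕ} (hd : IsChain M ρ d N)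
    (I : Finset (Fin n)) (hI : ∀ v ∈ I, d 0 ≤ blk v)
    (hloc : ∀ l < N, ∀ J : Finset (Fin n), J ⊆ I → (∀ v ∈ J, v ∈ lay blk (d l) (d (l + 1))) →
      Cov p γ C ((J.card + 1) * e) (ents (iprod M (d l) (d (l + 1))) ∪
        dents J (iprod M (d l) (d (l + 1)))) (lay blk (d l) (d (l + 1))))
    {m : ℕ} (hm : m ≤ N)
    (hrun : ∀ k t, k < t → t ≤ m → (∀ v ∈ I, v ∉ lay blk (d k) (d t)) →
      Cov p γ C s' (ents (iprod M (d k) (d t))) (lay blk (d k) (d t))) :
    ∀ t ≤ m, Cov p γ C (((I.filter fun v => blk v < d t).card + 1) * s' +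
        2 * (I.filter fun v => blk v < d t).card * e)
      (ents (iprod M (d 0) (d t)) ∪ dents (I.filter fun v => blk v < d t) (iprod M (d 0) (d t)))
      (lay blk (d 0) (d t)) := by
  classical
  have key : ∀ t, t ≤ m →
      ((t = 0 ∨ ∃ v ∈ I, v ∈ lay blk (d (t - 1)) (d t)) →
        Cov p γ C ((I.filter fun v => blk v < d t).card * s' +
            2 * (I.filter fun v => blk v < d t).card * e)
          (ents (iprod M (d 0) (d t)) ∪
            dents (I.filter fun v => blk v < d t) (iprod M (d 0) (d t)))
          (lay blk (d 0) (d t))) ∧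
      Cov p γ C (((I.filter fun v => blk v < d t).card + 1) * s' +
          2 * (I.filter fun v => blk v < d t).card * e)
        (ents (iprod M (d 0) (d t)) ∪ dents (I.filter fun v => blk v < d t) (iprod M (d 0) (d t)))
        (lay blk (d 0) (d t)) := by
    intro t
    induction t using Nat.strong_induction_on with
    | _ t ih =>
      intro ht
      have hsharp : (t = 0 ∨ ∃ v ∈ I, v ∈ lay blk (d (t - 1)) (d t)) →
          Cov p γ C ((I.filter fun v => blk v < d t).card * s' +
              2 * (I.filter fun v => blk v < d t).card * e)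
            (ents (iprod M (d 0) (d t)) ∪
              dents (I.filter fun v => blk v < d t) (iprod M (d 0) (d t)))
            (lay blk (d 0) (d t)) := by
        rcases Nat.eq_zero_or_pos t with h0 | h0
        · intro _
          subst h0
          refine Cov.empty ?_
          rw [iprod_self]
          have h1 : ∀ (v : Fin n) (i j : Fin w),
              pderiv v ((1 : Matrix (Fin w) (Fin w) (MvPolynomial (Fin n) K)) i j) = 0 := by
            intro v i j
            rw [Matrix.one_apply]
            split_ifs
            · exact Derivation.map_one_eq_zero _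
            · exact map_zero _
          rintro τ (⟨i, j, rfl⟩ | ⟨v, _, i, j, rfl⟩)
          · funext v
            rw [gr, h1, map_zero]
            rfl
          · funext u
            rw [gr, h1, map_zero, map_zero]
            rfl
        · intro hmk
          obtain ⟨v₀, hv₀, hv₀'⟩ : ∃ v ∈ I, v ∈ lay blk (d (t - 1)) (d t) := by
            rcases hmk with h | h
            · omega
            · exact h
          have ht1 : t - 1 + 1 = t := by omega
          have hle : d (t - 1) ≤ d t := hd.mono (by omega) (by omega)
          have hle0 : d 0 ≤ d (t - 1) := hd.mono (by omega) (by omega)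
          have hl := hloc (t - 1) (by omega) (I.filter fun v => v ∈ lay blk (d (t - 1)) (d t))
            (Finset.filter_subset _ _) (by
              rw [ht1]
              intro v hv
              exact (Finset.mem_filter.1 hv).2)
          rw [ht1] at hl
          have hi := (ih (t - 1) (by omega) (by omega)).2
          have hg := pieces_glue hM hle0 hle _ _ (fun v hv => (Finset.mem_filter.1 hv).2)
            (fun v hv => (Finset.mem_filter.1 hv).2.1) hi hl (I.filter fun v => blk v < d t) (by
              intro v hv
              obtain ⟨hv1, hv2⟩ := Finset.mem_filter.1 hv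
              rcases lt_or_ge (blk v) (d (t - 1)) with h | h
              · exact Or.inl (Finset.mem_filter.2 ⟨hv1, h⟩)
              · exact Or.inr (Finset.mem_filter.2 ⟨hv1, h, hv2⟩))
          refine hg.mono le_rfl ?_ subset_rfl subset_rfl
          have hcard : (I.filter fun v => blk v < d t).card =
              (I.filter fun v => blk v < d (t - 1)).card +
                (I.filter fun v => v ∈ lay blk (d (t - 1)) (d t)).card := by
            rw [← Finset.card_union_of_disjoint]
            · congr 1
              ext v
              rw [Finset.mem_union, Finset.mem_filter, Finset.mem_filter, Finset.mem_filter]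
              constructor
              · rintro ⟨h1, h2⟩
                rcases lt_or_ge (blk v) (d (t - 1)) with h | h
                · exact Or.inl ⟨h1, h⟩
                · exact Or.inr ⟨h1, h, h2⟩
              · rintro (⟨h1, h2⟩ | ⟨h1, h2⟩)
                · exact ⟨h1, h2.trans_le hle⟩
                · exact ⟨h1, h2.2⟩
            · rw [Finset.disjoint_left]
              intro v h1 h2
              exact absurd (Finset.mem_filter.1 h1).2 (not_lt.2 (Finset.mem_filter.1 h2).2.1)
          have hpos : 1 ≤ (I.filter fun v => v ∈ lay blk (d (t - 1)) (d t)).card :=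
            Finset.card_pos.2 ⟨v₀, Finset.mem_filter.2 ⟨hv₀, hv₀'⟩⟩
          rw [hcard]
          generalize (I.filter fun v => blk v < d (t - 1)).card = k at *
          generalize (I.filter fun v => v ∈ lay blk (d (t - 1)) (d t)).card = j at *
          nlinarith [Nat.mul_le_mul_right s' hpos, Nat.mul_le_mul_right e hpos]
      refine ⟨hsharp, ?_⟩
      by_cases hmk : t = 0 ∨ ∃ v ∈ I, v ∈ lay blk (d (t - 1)) (d t)
      · refine (hsharp hmk).mono le_rfl ?_ subset_rfl subset_rfl
        exact Nat.add_le_add_right (Nat.mul_le_mul_right _ (Nat.le_succ _)) _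
      · push Not at hmk
        obtain ⟨ht0, hun⟩ := hmk
        have hex : ∃ k, ∀ v ∈ I, v ∉ lay blk (d k) (d t) := ⟨t - 1, hun⟩
        let t₀ := Nat.find hex
        have h0 : ∀ v ∈ I, v ∉ lay blk (d t₀) (d t) := Nat.find_spec hex
        have hlt : t₀ < t := by
          have : t₀ ≤ t - 1 := Nat.find_min' hex hun
          omega
        have hmin : t₀ = 0 ∨ ∃ v ∈ I, v ∈ lay blk (d (t₀ - 1)) (d t₀) := by
          rcases Nat.eq_zero_or_pos t₀ with h | h
          · exact Or.inl h
          · right
            have h1 := Nat.find_min hex (m := t₀ - 1) (by omega)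
            push Not at h1
            obtain ⟨v, hv, hv'⟩ := h1
            refine ⟨v, hv, hv'.1, ?_⟩
            by_contra h2
            exact h0 v hv ⟨not_lt.1 h2, hv'.2⟩
        have hle : d t₀ ≤ d t := hd.mono hlt.le (by omega)
        have hle0 : d 0 ≤ d t₀ := hd.mono (Nat.zero_le _) (by omega)
        have hi := (ih t₀ hlt (by omega)).1 hmin
        have hr := hrun t₀ t hlt ht h0
        have hr' : Cov p γ C s' (ents (iprod M (d t₀) (d t)) ∪ dents ∅ (iprod M (d t₀) (d t)))
            (lay blk (d t₀) (d t)) := by
          refine hr.mono le_rfl le_rfl ?_ subset_rfl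
          rintro τ (h | ⟨v, hv, _⟩)
          · exact h
          · exact absurd hv (Finset.notMem_empty v)
        have hfil : (I.filter fun v => blk v < d t) = I.filter fun v => blk v < d t₀ := by
          ext v
          rw [Finset.mem_filter, Finset.mem_filter]
          constructor
          · rintro ⟨h1, h2⟩
            refine ⟨h1, ?_⟩
            by_contra h3
            exact h0 v h1 ⟨not_lt.1 h3, h2⟩
          · rintro ⟨h1, h2⟩
            exact ⟨h1, h2.trans_le hle⟩
        have hg := pieces_glue hM hle0 hle _ ∅ (fun v hv => (Finset.mem_filter.1 hv).2)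
          (fun v hv => absurd hv (Finset.notMem_empty v)) hi hr'
          (I.filter fun v => blk v < d t) (by
            intro v hv
            rw [hfil] at hv
            exact Or.inl hv)
        refine hg.mono le_rfl ?_ subset_rfl subset_rfl
        rw [hfil]
        apply le_of_eq
        ring
  exact fun t ht => (key t ht).2

end Pool.Agent.CWR
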