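import Pool.Agent.CWR.IP

/-!
# CWR: sums and products of programs (matrices with any index type)
-/

set_option autoImplicit false

namespace Pool.Agent.CWR

open MvPolynomial

variable {K : Type*} [Field K] {n : ℕ}

/-- `F = u^T M_0 ... M_(L-1) v` with matrices indexed by `ι` whose entries are in `𝒜 l` -/
def RI (𝒜 : ℕ → Subalgebra K (MvPolynomial (Fin n) K)) (L : ℕ) (ι : Type) [Fintype ι]
    [DecidableEq ι] (F : MvPolynomial (Fin n) K) : Prop :=
  ∃ (M : ℕ → Matrix ι ι (MvPolynomial (Fin n) K)) (u v : ι → K), (∀ l i j, M l i j ∈ 𝒜 l) ∧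
    F = ∑ i, ∑ j, C (u i) * ((List.range' 0 L).map M).prod i j * C (v j)

variable {𝒜 : ℕ → Subalgebra K (MvPolynomial (Fin n) K)} {L : ℕ} {ι κ : Type} [Fintype ι]
  [DecidableEq ι] [Fintype κ] [DecidableEq κ] {F G : MvPolynomial (Fin n) K}

private theorem ri_sub (e : ι ≃ κ) (M : ℕ → Matrix ι ι (MvPolynomial (Fin n) K)) (l : List ℕ) :
    (l.map fun i => (M i).submatrix e.symm e.symm).prod = (l.map M).prod.submatrix e.symm e.symm := by
  induction l with
  | nil => simp
  | cons a l ih =>
    rw [List.map_cons, List.prod_cons, List.map_cons, List.prod_cons, ih, Matrix.submatrix_mul_equiv]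

private theorem ri_blk (M : ℕ → Matrix ι ι (MvPolynomial (Fin n) K))
    (M' : ℕ → Matrix κ κ (MvPolynomial (Fin n) K)) (l : List ℕ) :
    (l.map fun i => Matrix.fromBlocks (M i) 0 0 (M' i)).prod =
      Matrix.fromBlocks (l.map M).prod 0 0 (l.map M').prod := by
  induction l with
  | nil => simp [Matrix.fromBlocks_one]
  | cons a l ih =>
    rw [List.map_cons, List.prod_cons, List.map_cons, List.prod_cons, List.map_cons, List.prod_cons,
      ih, Matrix.fromBlocks_multiply]
    simp

private theorem ri_kro (M : ℕ → Matrix ι ι (MvPolynomial (Fin n) K))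
    (M' : ℕ → Matrix κ κ (MvPolynomial (Fin n) K)) (l : List ℕ) :
    (l.map fun i => Matrix.kroneckerMap (fun x y => x * y) (M i) (M' i)).prod =
      Matrix.kroneckerMap (fun x y => x * y) (l.map M).prod (l.map M').prod := by
  induction l with
  | nil =>
    simp only [List.map_nil, List.prod_nil]
    exact (Matrix.one_kronecker_one).symm
  | cons a l ih =>
    rw [List.map_cons, List.prod_cons, List.map_cons, List.prod_cons, List.map_cons, List.prod_cons,
      ih]
    exact (Matrix.mul_kronecker_mul _ _ _ _).symm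

/- PLAN. `M' l = (M l).submatrix e.symm e.symm`; the product of the submatrices is the submatrix of
the product (induction over the list, `Matrix.submatrix_mul_equiv`, or the ring equivalence
`Matrix.reindexAlgEquiv`/`Matrix.reindexRingEquiv` and `map_list_prod`). -/
theorem RI.equiv (e : ι ≃ κ) (h : RI 𝒜 L ι F) : RI 𝒜 L κ F := by
  obtain ⟨M, u, v, hM, rfl⟩ := h
  refine ⟨fun l => (M l).submatrix e.symm e.symm, fun i => u (e.symm i), fun i => v (e.symm i),
    fun l i j => hM l _ _, ?_⟩
  rw [ri_sub]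
  rw [← e.sum_comp]
  refine Finset.sum_congr rfl fun i _ => ?_
  rw [← e.sum_comp]
  refine Finset.sum_congr rfl fun j _ => ?_
  simp

/- PLAN. `Matrix.fromBlocks (M l) 0 0 (M' l)`, `u = Sum.elim u u'`, `v = Sum.elim v v'`; the product
over a list is `fromBlocks` of the products (induction, `Matrix.fromBlocks_multiply`,
`Matrix.fromBlocks_one`). -/
theorem RI.add (h : RI 𝒜 L ι F) (h' : RI 𝒜 L κ G) : RI 𝒜 L (ι ⊕ κ) (F + G) := by
  obtain ⟨M, u, v, hM, rfl⟩ := h
  obtain ⟨M', u', v', hM', rfl⟩ := h'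
  refine ⟨fun l => Matrix.fromBlocks (M l) 0 0 (M' l), Sum.elim u u', Sum.elim v v', ?_, ?_⟩
  · rintro l (i | i) (j | j)
    · exact hM l i j
    · exact (𝒜 l).zero_mem
    · exact (𝒜 l).zero_mem
    · exact hM' l i j
  · rw [ri_blk]
    simp [Fintype.sum_sum_type]

/- PLAN. `Matrix.kroneckerMap (· * ·) (M l) (M' l)` (`Matrix.kronecker`), `u p = u₁ p.1 * u₂ p.2`; the
product over a list is the Kronecker product of the products (induction,
`Matrix.mul_kronecker_mul`, `Matrix.one_kronecker_one`). -/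
theorem RI.mul (h : RI 𝒜 L ι F) (h' : RI 𝒜 L κ G) : RI 𝒜 L (ι × κ) (F * G) := by
  obtain ⟨M, u, v, hM, rfl⟩ := h
  obtain ⟨M', u', v', hM', rfl⟩ := h'
  refine ⟨fun l => Matrix.kroneckerMap (fun x y => x * y) (M l) (M' l), fun p => u p.1 * u' p.2,
    fun p => v p.1 * v' p.2, ?_, ?_⟩
  · rintro l ⟨i, i'⟩ ⟨j, j'⟩
    exact (𝒜 l).mul_mem (hM l i j) (hM' l i' j')
  · rw [ri_kro]
    simp only [Fintype.sum_prod_type, Matrix.kroneckerMap_apply, map_mul]
    rw [Finset.sum_mul_sum]
    refine Finset.sum_congr rfl fun i _ => Finset.sum_congr rfl fun i' _ => ?_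
    rw [Finset.sum_mul_sum]
    refine Finset.sum_congr rfl fun j _ => Finset.sum_congr rfl fun j' _ => ?_
    ring

end Pool.Agent.CWR
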