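import Pool.Agent.CWR.Defs
import Pool.Agent.ORB.LeafA

/-!
# CWR: read-once oblivious branching programs with at most `q` variables per layer are in the class
-/

set_option autoImplicit false

namespace Pool.Agent.CWR

open MvPolynomial Pool.Agent.ORB

variable {K : Type*} [Field K] {n : ℕ}

/- `MvPolynomial.exists_rename_eq_of_vars_subset_range`, `A.equivFin`, `Circ.comp`. -/
theorem circ_of_vars {q w : ℕ} {β : ℕ → Option (Fin n → ℕ)} (hβ : β 0 = none)
    (A : Finset (Fin n)) (hA : A.card ≤ q) (F : MvPolynomial (Fin n) K) (hF : ∀ x ∈ F.vars, x ∈ A) :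
    Circ q w β (MixedLeaf ∅ 1) 1 F := by
  have hinj : Function.Injective (fun i : Fin A.card => ((A.equivFin.symm i : A) : Fin n)) := by
    intro i j hij
    exact A.equivFin.symm.injective (Subtype.ext hij)
  have hr : (F.vars : Set (Fin n)) ⊆
      Set.range (fun i : Fin A.card => ((A.equivFin.symm i : A) : Fin n)) := by
    intro x hx
    have hxA : x ∈ A := hF x (Finset.mem_coe.mp hx)
    refine ⟨A.equivFin ⟨x, hxA⟩, ?_⟩
    simp
  obtain ⟨p, hp⟩ := MvPolynomial.exists_rename_eq_of_vars_subset_range F _ hinj hr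
  have h1 : F = MvPolynomial.aeval
      (fun i : Fin A.card => (X ((A.equivFin.symm i : A) : Fin n) : MvPolynomial (Fin n) K)) p := by
    rw [← hp]
    have h2 : (MvPolynomial.rename (fun i : Fin A.card => ((A.equivFin.symm i : A) : Fin n)) :
        MvPolynomial (Fin A.card) K →ₐ[K] MvPolynomial (Fin n) K) =
        MvPolynomial.aeval (fun i : Fin A.card =>
          (X ((A.equivFin.symm i : A) : Fin n) : MvPolynomial (Fin n) K)) := by
      refine MvPolynomial.algHom_ext (fun i => ?_)
      rw [MvPolynomial.rename_X, MvPolynomial.aeval_X]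
    rw [h2]
  rw [h1]
  refine Circ.comp (Δ := 0) hβ _ (fun l => Circ.leaf ?_) hA p
  refine mixedLeaf_of_support ?_
  rw [MvPolynomial.support_X]
  simp

/- `β = fun j => if j = 0 then none else some blk`, `circ_of_vars` for the entries of `M l`,
`l < L`, `Circ.abp`. -/
theorem circ_of_roabp {q w : ℕ} {blk : Fin n → ℕ}
    (hq : ∀ l, (Finset.univ.filter fun v => blk v = l).card ≤ q) {F : MvPolynomial (Fin n) K}
    (hF : ROABP blk w F) :
    Circ q w (fun j => if j = 0 then none else some blk) (MixedLeaf ∅ 1) 2 F := by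
  obtain ⟨L, M, u, v, hv, rfl⟩ := hF
  refine Circ.abp (Δ := 1) (blk := blk) (by simp) (le_refl w) M (fun l hl i j => ?_) hv u v
  refine circ_of_vars (by simp) (Finset.univ.filter fun v => blk v = l) (hq l) (M l i j)
    (fun x hx => ?_)
  exact Finset.mem_filter.mpr ⟨Finset.mem_univ x, hv l hl i j x hx⟩

/- `N = 1`, `T = fun _ => F`, `h = F`, `isAlgebraic_algebraMap`. -/
theorem orbitCirc_of_roabp {q w : ℕ} {blk : Fin n → ℕ}
    (hq : ∀ l, (Finset.univ.filter fun v => blk v = l).card ≤ q) {F : MvPolynomial (Fin n) K}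
    (hF : ROABP blk w F) (A : Matrix (Fin n) (Fin n) K) (hA : A.det ≠ 0) (b : Fin n → K) :
    OrbitCirc q 1 w 1 2 (aff A b F) := by
  refine ⟨A, b, ∅, fun j => if j = 0 then none else some blk, 1, fun _ => F, F, hA,
    fun _ => circ_of_roabp hq hF, fun c _ => ?_, ?_, rfl⟩
  · exact (Finset.card_le_univ c).trans (by simp)
  · exact isAlgebraic_algebraMap
      (⟨F, Algebra.subset_adjoin ⟨0, rfl⟩⟩ :
        Algebra.adjoin K (Set.range (fun _ : Fin 1 => F)))

end Pool.Agent.CWR
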