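import Mathlib

/-!
# CWR: rank lemmas over a field (Mathlib only)
-/

set_option autoImplicit false

namespace Pool.Agent.CWR

variable {F : Type*} [Field F] {w : ℕ}

private theorem rk_key (f : (Fin w → F) →ₗ[F] (Fin w → F)) (W : Submodule F (Fin w → F)) :
    Module.finrank F (W.map f) + Module.finrank F (W ⊓ LinearMap.ker f : Submodule F (Fin w → F)) =
      Module.finrank F W := by
  have h1 := LinearMap.finrank_range_add_finrank_ker (f.domRestrict W)
  have h2 : LinearMap.range (f.domRestrict W) = W.map f := by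
    ext x
    constructor
    · rintro ⟨y, rfl⟩
      exact ⟨y.1, y.2, rfl⟩
    · rintro ⟨y, hy, rfl⟩
      exact ⟨⟨y, hy⟩, rfl⟩
  have h3 : (LinearMap.ker (f.domRestrict W)).map W.subtype = W ⊓ LinearMap.ker f := by
    ext x
    constructor
    · rintro ⟨y, hy, rfl⟩
      exact ⟨y.2, hy⟩
    · rintro ⟨hx, hx'⟩
      exact ⟨⟨x, hx⟩, hx', rfl⟩
  rw [h2, ← Submodule.finrank_map_subtype_eq W (LinearMap.ker (f.domRestrict W)), h3] at h1
  exact h1

private theorem rk_mul (A B : Matrix (Fin w) (Fin w) F) :
    (A * B).rank = Module.finrank F ((LinearMap.range B.mulVecLin).map A.mulVecLin) := by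
  rw [← LinearMap.range_comp, ← Matrix.mulVecLin_mul]
  rfl

private theorem rk_ext {M : Matrix (Fin w) (Fin w) F} (h : ∀ v, M.mulVec v = 0) : M = 0 := by
  apply (Matrix.toLin' (R := F) (m := Fin w) (n := Fin w)).injective
  rw [map_zero]
  apply LinearMap.ext
  intro v
  rw [Matrix.toLin'_apply]
  exact h v

theorem frobenius (A B C : Matrix (Fin w) (Fin w) F) :
    (A * B).rank + (B * C).rank ≤ B.rank + (A * B * C).rank := by
  have h1 := rk_key A.mulVecLin (LinearMap.range B.mulVecLin)
  have h2 := rk_key A.mulVecLin (LinearMap.range (B * C).mulVecLin)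
  rw [← rk_mul] at h1 h2
  rw [← Matrix.mul_assoc] at h2
  have h3 : Module.finrank F (LinearMap.range (B * C).mulVecLin ⊓ LinearMap.ker A.mulVecLin :
      Submodule F (Fin w → F)) ≤
      Module.finrank F (LinearMap.range B.mulVecLin ⊓ LinearMap.ker A.mulVecLin :
        Submodule F (Fin w → F)) := by
    refine Submodule.finrank_mono (inf_le_inf_right _ ?_)
    rw [Matrix.mulVecLin_mul]
    exact LinearMap.range_comp_le_range _ _
  have h4 : B.rank = Module.finrank F (LinearMap.range B.mulVecLin) := rfl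
  have h5 : (B * C).rank = Module.finrank F (LinearMap.range (B * C).mulVecLin) := rfl
  omega

theorem inj_left {A B : Matrix (Fin w) (Fin w) F} (h : (A * B).rank = B.rank)
    {Z : Matrix (Fin w) (Fin w) F} (hZ : A * (B * Z) = 0) : B * Z = 0 := by
  have h1 := rk_key A.mulVecLin (LinearMap.range B.mulVecLin)
  rw [← rk_mul, h] at h1
  have h4 : B.rank = Module.finrank F (LinearMap.range B.mulVecLin) := rfl
  have h2 : Module.finrank F (LinearMap.range B.mulVecLin ⊓ LinearMap.ker A.mulVecLin :
      Submodule F (Fin w → F)) = 0 := by omega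
  have h3 := Submodule.finrank_eq_zero.1 h2
  refine rk_ext fun v => ?_
  have h5 : (B * Z).mulVec v ∈ (LinearMap.range B.mulVecLin ⊓ LinearMap.ker A.mulVecLin :
      Submodule F (Fin w → F)) := by
    refine ⟨⟨Z.mulVec v, ?_⟩, ?_⟩
    · rw [Matrix.mulVecLin_apply, Matrix.mulVec_mulVec]
    · rw [SetLike.mem_coe, LinearMap.mem_ker, Matrix.mulVecLin_apply, Matrix.mulVec_mulVec, hZ,
        Matrix.zero_mulVec]
  rw [h3] at h5
  exact (Submodule.mem_bot F).1 h5

theorem inj_right {B C : Matrix (Fin w) (Fin w) F} (h : (B * C).rank = B.rank)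
    {Z : Matrix (Fin w) (Fin w) F} (hZ : Z * B * C = 0) : Z * B = 0 := by
  have h1 : (C.transpose * B.transpose).rank = B.transpose.rank := by
    rw [← Matrix.transpose_mul, Matrix.rank_transpose, Matrix.rank_transpose, h]
  have h2 : C.transpose * (B.transpose * Z.transpose) = 0 := by
    rw [← Matrix.transpose_mul, ← Matrix.transpose_mul, hZ, Matrix.transpose_zero]
  have h3 := inj_left h1 h2
  rw [← Matrix.transpose_mul] at h3
  exact Matrix.transpose_eq_zero.1 h3

end Pool.Agent.CWR
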