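import Pool.Agent.CWR.Loc

/-!
# CWR: the generator preserves the rank of chains
-/

set_option autoImplicit false

namespace Pool.Agent.CWR

open MvPolynomial Pool.Agent.ORB

variable {K : Type*} [Field K] {n w : ℕ} {σ : Type*}

/-- the generator, as a homomorphism into a field -/
noncomputable def ev (p : Fin n → Polynomial K) (γ : Fin n → MvPolynomial σ K) (C : ℕ) :
    MvPolynomial (Fin n) K →+* FractionRing (MvPolynomial (σ ⊕ (Fin C ⊕ Fin C)) K) :=
  (algebraMap (MvPolynomial (σ ⊕ (Fin C ⊕ Fin C)) K)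
    (FractionRing (MvPolynomial (σ ⊕ (Fin C ⊕ Fin C)) K))).comp (PhiP p γ C).toRingHom

theorem ev_ne_zero {p : Fin n → Polynomial K} {γ : Fin n → MvPolynomial σ K} {C : ℕ}
    {F : MvPolynomial (Fin n) K} : ev p γ C F ≠ 0 ↔ PhiP p γ C F ≠ 0 := by
  have e : ev p γ C F = algebraMap (MvPolynomial (σ ⊕ (Fin C ⊕ Fin C)) K)
      (FractionRing (MvPolynomial (σ ⊕ (Fin C ⊕ Fin C)) K)) (PhiP p γ C F) := rfl
  rw [e]
  exact map_ne_zero_iff _ (IsFractionRing.injective _ _)

variable [CharZero K] {p : Fin n → Polynomial K}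
  {γ : Fin n → MvPolynomial σ K} {blk : Fin n → ℕ}
  {M : ℕ → Matrix (Fin w) (Fin w) (MvPolynomial (Fin n) K)}

omit [CharZero K] in
private theorem rkhit_mem {𝒯 : Set (MvPolynomial (Fin n) K)}
    {X : Matrix (Fin w) (Fin w) (MvPolynomial (Fin n) K)} (h : ents X ⊆ 𝒯) :
    ∀ i j, X i j ∈ Algebra.adjoin K 𝒯 :=
  fun i j => Algebra.subset_adjoin (h ⟨i, j, rfl⟩)

private theorem rkhit_aux (hp : LinearIndependent K p) {c s ρ C : ℕ}
    {𝒯 : Set (MvPolynomial (Fin n) K)} {V : Set (Fin n)} (hc : Cov p γ c s 𝒯 V)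
    {X : Matrix (Fin w) (Fin w) (MvPolynomial (Fin n) K)}
    (hX : ∀ i j, X i j ∈ Algebra.adjoin K 𝒯) (hr : ρ ≤ rk X) (hC : c + s ≤ C) :
    ρ ≤ (X.map (ev p γ C)).rank := by
  obtain ⟨a, b, hdet⟩ := exists_minor_of_le_rk hr
  have hmem : (X.submatrix a b).det ∈ Algebra.adjoin K 𝒯 :=
    det_mem (fun i j => hX (a i) (b j))
  have hg : gr (X.submatrix a b).det ∈ Submodule.span (QQ K n) (gr '' 𝒯) :=
    gr_mem_of_adjoin (Submodule.span (QQ K n) (gr '' 𝒯)) 𝒯
      (fun x hx => Submodule.subset_span (Set.mem_image_of_mem gr hx)) hmem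
  have h1 := hit_of_cov hp hc hdet hg
  exact le_rank_map (ev p γ C) (ev_ne_zero.2 (PhiP_mono p γ hC h1))

/-- The generator preserves the rank of one or two consecutive blocks. -/
theorem le_rank_two (hM : Lay blk M) {q c s ρ : ℕ}
    (hq : LCov blk M p γ c q) (hp : LinearIndependent K p)
    (h : HH blk M p γ (ρ + 1) c s) {d : ℕ → ℕ} {N : ℕ} (hd : IsChain M ρ d N) {C : ℕ}
    (hC : c + 2 * (s + q) ≤ C) {l m : ℕ} (hl : l < m) (hm : m ≤ l + 2) (hmN : m ≤ N) :
    ρ ≤ ((iprod M (d l) (d m)).map (ev p γ C)).rank := by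
  have hblock : ∀ i, i < N → Cov p γ c (1 * (s + q)) (ents (iprod M (d i) (d (i + 1))))
      (lay blk (d i) (d (i + 1))) := by
    intro i hi
    have h1 := loc hM hq h (hd.lt i hi) (hd.min i hi) ∅ (by simp) (by simp)
    rw [Finset.card_empty, zero_add] at h1
    exact h1.mono le_rfl le_rfl Set.subset_union_left subset_rfl
  have hcase : m = l + 1 ∨ m = l + 2 := by omega
  rcases hcase with rfl | rfl
  · exact rkhit_aux hp (hblock l (by omega)) (rkhit_mem subset_rfl) (hd.rkb l (by omega)).ge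
      (by omega)
  · have h1 := hblock l (by omega)
    have h2 := hblock (l + 1) (by omega)
    have hV : ∀ v ∈ lay blk (d (l + 1)) (d (l + 1 + 1)), v ∉ lay blk (d l) (d (l + 1)) := by
      intro v hv hv'
      exact absurd hv'.2 (not_lt.2 hv.1)
    have h3 := h1.union h2 hV
    have e : iprod M (d l) (d (l + 2)) =
        iprod M (d l) (d (l + 1)) * iprod M (d (l + 1)) (d (l + 1 + 1)) :=
      (iprod_mul M (hd.lt l (by omega)).le (hd.lt (l + 1) (by omega)).le).symm
    have hr : ρ ≤ rk (iprod M (d l) (d (l + 2))) := (hd.rk_sub (by omega) hmN).ge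
    rw [e] at hr ⊢
    exact rkhit_aux hp h3 (ents_mul_mem (rkhit_mem Set.subset_union_left)
      (rkhit_mem Set.subset_union_right)) hr (by omega)

/-- The generator preserves the rank of chains. -/
theorem rank_chain (hM : Lay blk M) {q c s ρ : ℕ}
    (hq : LCov blk M p γ c q) (hp : LinearIndependent K p)
    (h : HH blk M p γ (ρ + 1) c s) {d : ℕ → ℕ} {N : ℕ} (hd : IsChain M ρ d N) {C : ℕ}
    (hC : c + 2 * (s + q) ≤ C) {k m : ℕ} (hk : k < m) (hm : m ≤ N) :
    ((iprod M (d k) (d m)).map (ev p γ C)).rank = ρ := by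
  have hup : ∀ i j, i < j → j ≤ N → ((iprod M (d i) (d j)).map (ev p γ C)).rank ≤ ρ := by
    intro i j hij hj
    have h1 := rank_map_le (ev p γ C) (iprod M (d i) (d j))
    rwa [hd.rk_sub hij hj] at h1
  refine le_antisymm (hup k m hk hm) ?_
  obtain ⟨t, rfl⟩ : ∃ t, m = k + 1 + t := ⟨m - (k + 1), by omega⟩
  clear hk
  induction t with
  | zero => exact le_rank_two hM hq hp h hd hC (by omega) (by omega) hm
  | succ t ih =>
    rcases Nat.eq_zero_or_pos t with rfl | ht
    · exact le_rank_two hM hq hp h hd hC (by omega) (by omega) hm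
    · have ih' := ih (by omega)
      obtain ⟨r, rfl⟩ : ∃ r, t = r + 1 := ⟨t - 1, by omega⟩
      have m1 : d k ≤ d (k + 1 + r) := hd.mono (by omega) (by omega)
      have m2 : d (k + 1 + r) ≤ d (k + 1 + (r + 1)) := hd.mono (by omega) (by omega)
      have m3 : d (k + 1 + (r + 1)) ≤ d (k + 1 + (r + 1 + 1)) := hd.mono (by omega) (by omega)
      have eAB := iprod_mul M m1 m2
      have eBC := iprod_mul M m2 m3
      have eABC := iprod_mul M (m1.trans m2) m3
      have hBC : ρ ≤ ((iprod M (d (k + 1 + r)) (d (k + 1 + (r + 1 + 1)))).map (ev p γ C)).rank :=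
        le_rank_two hM hq hp h hd hC (by omega) (by omega) hm
      have hB := hup (k + 1 + r) (k + 1 + (r + 1)) (by omega) (by omega)
      have hF := frobenius ((iprod M (d k) (d (k + 1 + r))).map (ev p γ C))
        ((iprod M (d (k + 1 + r)) (d (k + 1 + (r + 1)))).map (ev p γ C))
        ((iprod M (d (k + 1 + (r + 1))) (d (k + 1 + (r + 1 + 1)))).map (ev p γ C))
      rw [← Matrix.map_mul, ← Matrix.map_mul, ← Matrix.map_mul, eAB, eBC, eABC] at hF
      omega

end Pool.Agent.CWR
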