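import Mathlib

/-!
# CWR: minors and ranks over a field (Mathlib only)
-/

set_option autoImplicit false

namespace Pool.Agent.CWR

variable {F : Type*} [Field F] {w : ℕ}

private theorem rkm_rows {m : Type} [Fintype m] {r : ℕ} (A : Matrix (Fin r) m F)
    (h : LinearIndependent F A.row) : ∃ J : Fin r → m, (A.submatrix id J).det ≠ 0 := by
  classical
  have hspan : Submodule.span F (Set.range A.col) = ⊤ := by
    apply Submodule.eq_top_of_finrank_eq
    have h1 : A.rank = r := by
      have := LinearIndependent.rank_matrix h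
      simpa using this
    rw [← Matrix.rank_eq_finrank_span_cols, h1]
    simp
  obtain ⟨κ, a, ha, hs, hi⟩ := exists_linearIndependent' F A.col
  have hfin : Finite κ := Finite.of_injective a ha
  have := Fintype.ofFinite κ
  have hcard : Fintype.card κ = r := by
    have h1 := finrank_span_eq_card hi
    rw [hs, hspan, finrank_top] at h1
    simpa using h1.symm
  set e : Fin r ≃ κ := (Fintype.equivFinOfCardEq hcard).symm with he
  refine ⟨a ∘ e, ?_⟩
  have h2 : LinearIndependent F ((A.submatrix id (a ∘ e)).col) := by
    have h3 : (A.submatrix id (a ∘ e)).col = (A.col ∘ a) ∘ e := by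
      funext j
      rfl
    rw [h3]
    exact hi.comp _ e.injective
  rw [Matrix.linearIndependent_cols_iff_isUnit] at h2
  exact ((Matrix.isUnit_iff_isUnit_det _).mp h2).ne_zero

/-- the entries of a matrix as a vector -/
private def rkm_vec : Matrix (Fin w) (Fin w) F →ₗ[F] (Fin w × Fin w → F) where
  toFun M p := M p.1 p.2
  map_add' _ _ := rfl
  map_smul' _ _ := rfl

private theorem rkm_vec_ker : LinearMap.ker (rkm_vec (F := F) (w := w)) = ⊥ := by
  rw [LinearMap.ker_eq_bot']
  intro M hM
  ext i j
  exact congrFun hM (i, j)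

/- PLAN. The matrix with rows `g j` (indexed by `Fin w × Fin w`) has independent rows, so it has a
nonzero minor of size `r` (choose independent columns: the column space has dimension `r`;
`exists_linearIndependent'`; see `Pool.Agent.Helper5.D4.exists_minor_of_rows` for the index type
`Fin n`). -/
theorem exists_minor {r : ℕ} {g : Fin r → Matrix (Fin w) (Fin w) F} (hg : LinearIndependent F g) :
    ∃ Rw : Fin r → Fin w × Fin w, (Matrix.of fun i j => g j (Rw i).1 (Rw i).2).det ≠ 0 := by
  have h1 : LinearIndependent F (rkm_vec ∘ g) := hg.map' rkm_vec rkm_vec_ker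
  obtain ⟨J, hJ⟩ := rkm_rows (Matrix.of fun (j : Fin r) (p : Fin w × Fin w) => g j p.1 p.2) h1
  refine ⟨J, ?_⟩
  rw [← Matrix.det_transpose] at hJ
  exact hJ

/- PLAN. A relation between the `g j` gives a vector in the kernel of the matrix
(`Matrix.eq_zero_of_mulVec_eq_zero`). -/
theorem linearIndependent_of_minor {r : ℕ} {g : Fin r → Matrix (Fin w) (Fin w) F}
    {Rw : Fin r → Fin w × Fin w}
    (h : (Matrix.of fun i j => g j (Rw i).1 (Rw i).2).det ≠ 0) : LinearIndependent F g := by
  rw [Fintype.linearIndependent_iff]
  intro c hc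
  have h1 : (Matrix.of fun i j => g j (Rw i).1 (Rw i).2).mulVec c = 0 := by
    funext i
    have h2 := congrFun (congrFun hc (Rw i).1) (Rw i).2
    simp only [Matrix.sum_apply, Matrix.smul_apply, smul_eq_mul, Matrix.zero_apply] at h2
    simp only [Matrix.mulVec, dotProduct, Matrix.of_apply, Pi.zero_apply]
    rw [← h2]
    exact Finset.sum_congr rfl fun j _ => mul_comm _ _
  have h3 := Matrix.eq_zero_of_mulVec_eq_zero h h1
  intro i
  exact congrFun h3 i

/- PLAN. `r` independent rows, then `r` independent columns (`exists_linearIndependent'` on the rows,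
`Matrix.rank`). -/
theorem exists_rank_minor {r : ℕ} {X : Matrix (Fin w) (Fin w) F} (h : r ≤ X.rank) :
    ∃ a b : Fin r → Fin w, (X.submatrix a b).det ≠ 0 := by
  classical
  obtain ⟨κ, a, ha, hs, hi⟩ := exists_linearIndependent' F X.row
  have hfin : Finite κ := Finite.of_injective a ha
  have := Fintype.ofFinite κ
  have hcard : Fintype.card κ = X.rank := by
    have h1 := finrank_span_eq_card hi
    rw [hs] at h1
    rw [Matrix.rank_eq_finrank_span_row, h1]
  set e : Fin X.rank ≃ κ := (Fintype.equivFinOfCardEq hcard).symm with he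
  have h2 : LinearIndependent F (X.submatrix (a ∘ e ∘ Fin.castLE h) id).row := by
    have h3 : (X.submatrix (a ∘ e ∘ Fin.castLE h) id).row = (X.row ∘ a) ∘ (e ∘ Fin.castLE h) := by
      funext j
      rfl
    rw [h3]
    exact hi.comp _ (e.injective.comp (Fin.castLE_injective h))
  obtain ⟨J, hJ⟩ := rkm_rows _ h2
  exact ⟨_, J, hJ⟩

/- PLAN. `X.submatrix a b` has rank `r` (invertible) and its rank is at most the rank of `X`
(`Matrix.rank_submatrix_le` may need an equivalence; use `rank (P * X * Q) ≤ rank X` with 0-1
matrices `P`, `Q`, or independence of rows and columns). -/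
theorem le_rank_of_minor {r : ℕ} {X : Matrix (Fin w) (Fin w) F} {a b : Fin r → Fin w}
    (h : (X.submatrix a b).det ≠ 0) : r ≤ X.rank := by
  have h1 : (X.submatrix a b).rank = r := by
    have h2 : IsUnit (X.submatrix a b) := (Matrix.isUnit_iff_isUnit_det _).mpr (isUnit_iff_ne_zero.mpr h)
    have h3 := Matrix.rank_of_isUnit _ h2
    simpa using h3
  rw [← h1]
  exact Matrix.rank_submatrix_le X a b

end Pool.Agent.CWR
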