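import Pool.Agent.CWR.Rk
import Pool.Agent.CWR.RkM
import Pool.Agent.CWR.Gr

/-!
# CWR: ranks over the field of rational functions
-/

set_option autoImplicit false

namespace Pool.Agent.CWR

open MvPolynomial

variable {K : Type*} [Field K] {n w : ℕ}

/-- the matrix over the field of rational functions -/
noncomputable def mq (X : Matrix (Fin w) (Fin w) (MvPolynomial (Fin n) K)) :
    Matrix (Fin w) (Fin w) (QQ K n) := X.map (algebraMap (MvPolynomial (Fin n) K) (QQ K n))

/-- the rank over the field of rational functions -/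
noncomputable def rk (X : Matrix (Fin w) (Fin w) (MvPolynomial (Fin n) K)) : ℕ := (mq X).rank

private theorem rkR_det {L : Type*} [Field L] (f : MvPolynomial (Fin n) K →+* L) {r : ℕ}
    (X : Matrix (Fin w) (Fin w) (MvPolynomial (Fin n) K)) (a b : Fin r → Fin w) :
    ((X.map f).submatrix a b).det = f (X.submatrix a b).det := by
  rw [RingHom.map_det]
  rfl

private theorem rkR_inj : Function.Injective (algebraMap (MvPolynomial (Fin n) K) (QQ K n)) :=
  IsFractionRing.injective (MvPolynomial (Fin n) K) (QQ K n)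

private theorem rkR_ne {x : MvPolynomial (Fin n) K} (h : x ≠ 0) :
    algebraMap (MvPolynomial (Fin n) K) (QQ K n) x ≠ 0 := by
  intro h0
  exact h (rkR_inj (h0.trans (map_zero _).symm))

private theorem rkR_le {r : ℕ} {X : Matrix (Fin w) (Fin w) (MvPolynomial (Fin n) K)}
    {a b : Fin r → Fin w} (h : (X.submatrix a b).det ≠ 0) : r ≤ rk X := by
  refine le_rank_of_minor (a := a) (b := b) ?_
  unfold mq
  rw [rkR_det]
  exact rkR_ne h

theorem mq_mul (X Y : Matrix (Fin w) (Fin w) (MvPolynomial (Fin n) K)) :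
    mq (X * Y) = mq X * mq Y := by
  exact Matrix.map_mul

theorem rk_le (X : Matrix (Fin w) (Fin w) (MvPolynomial (Fin n) K)) : rk X ≤ w := by
  exact Matrix.rank_le_width _

theorem one_le_rk {X : Matrix (Fin w) (Fin w) (MvPolynomial (Fin n) K)} (h : X ≠ 0) :
    1 ≤ rk X := by
  have h1 : ∃ i j, X i j ≠ 0 := by
    by_contra hc
    push Not at hc
    exact h (Matrix.ext hc)
  obtain ⟨i, j, hij⟩ := h1
  refine rkR_le (a := fun _ : Fin 1 => i) (b := fun _ => j) ?_
  rw [Matrix.det_fin_one]
  exact hij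

theorem rk_iprod_anti (M : ℕ → Matrix (Fin w) (Fin w) (MvPolynomial (Fin n) K)) {a a' b' b : ℕ}
    (h1 : a ≤ a') (h2 : a' ≤ b') (h3 : b' ≤ b) : rk (iprod M a b) ≤ rk (iprod M a' b') := by
  have h4 : iprod M a b = iprod M a a' * iprod M a' b' * iprod M b' b := by
    rw [iprod_mul M h1 h2, iprod_mul M (h1.trans h2) h3]
  unfold rk
  rw [h4, mq_mul, mq_mul]
  exact (Matrix.rank_mul_le_left _ _).trans (Matrix.rank_mul_le_right _ _)

theorem exists_minor_of_le_rk {r : ℕ} {X : Matrix (Fin w) (Fin w) (MvPolynomial (Fin n) K)}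
    (h : r ≤ rk X) : ∃ a b : Fin r → Fin w, (X.submatrix a b).det ≠ 0 := by
  obtain ⟨a, b, hab⟩ := exists_rank_minor h
  refine ⟨a, b, fun h0 => hab ?_⟩
  unfold mq
  rw [rkR_det, h0, map_zero]

theorem rank_map_le {L : Type*} [Field L] (f : MvPolynomial (Fin n) K →+* L)
    (X : Matrix (Fin w) (Fin w) (MvPolynomial (Fin n) K)) : (X.map f).rank ≤ rk X := by
  obtain ⟨a, b, hab⟩ := exists_rank_minor (le_refl (X.map f).rank)
  rw [rkR_det] at hab
  exact rkR_le (a := a) (b := b) fun h0 => hab (by rw [h0, map_zero])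

theorem le_rank_map {L : Type*} [Field L] (f : MvPolynomial (Fin n) K →+* L) {r : ℕ}
    {X : Matrix (Fin w) (Fin w) (MvPolynomial (Fin n) K)} {a b : Fin r → Fin w}
    (h : f (X.submatrix a b).det ≠ 0) : r ≤ (X.map f).rank := by
  refine le_rank_of_minor (a := a) (b := b) ?_
  rw [rkR_det]
  exact h

end Pool.Agent.CWR
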